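import Mathlib

/-! # The algebra behind invariant metrics on flat F-manifolds -/

namespace Q198.Fman

variable {K A : Type*} [Field K] [CommRing A] [Algebra K A]

/-- `U` generates `A`. -/
def Gen (U : A) : Prop :=
  ∀ S : Submodule K A, (1 : A) ∈ S → (∀ Y ∈ S, U * Y ∈ S) → S = ⊤

/-- The pointwise conditions on the Christoffel symbols. -/
structure Adapt (U : A) (Λ : A →ₗ[K] K) (Γ : A →ₗ[K] A →ₗ[K] A) : Prop where
  symm : ∀ X Y, Γ X Y = Γ Y X
  unit : ∀ X, Γ X 1 = 0
  rel : ∀ X Y, Γ X (U * Y) - Γ Y (U * X) = Λ X • Y - Λ Y • X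

variable {U : A} {Λ : A →ₗ[K] K} {Γ : A →ₗ[K] A →ₗ[K] A}

lemma Adapt.shift (h : Adapt U Λ Γ) (X Y : A) :
    Γ X (U * Y) = Γ (U * X) Y + Λ X • Y - Λ Y • X := by
  have := h.rel X Y
  rw [h.symm Y (U * X)] at this
  rw [add_sub_assoc, ← this]; abel

/-- First commutation identity. -/
lemma Adapt.comm (h : Adapt U Λ Γ) (hU : Gen (K := K) U) (X Y : A) :
    U * Γ X Y - Γ (U * X) Y = Λ X • Y - Λ (X * Y) • (1 : A) := by
  let S : Submodule K A :=
    { carrier := {Y | ∀ X, U * Γ X Y - Γ (U * X) Y = Λ X • Y - Λ (X * Y) • (1 : A)}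
      add_mem' := by
        intro a b ha hb X
        have h1 := ha X
        have h2 := hb X
        rw [map_add, map_add, mul_add, mul_add, map_add, add_smul, smul_add]
        linear_combination h1 + h2
      zero_mem' := by intro X; simp
      smul_mem' := by
        intro c a ha X
        have h1 := ha X
        rw [map_smul, map_smul, mul_smul_comm, mul_smul_comm, map_smul, smul_eq_mul, mul_smul,
          smul_comm (Λ X) c a, ← smul_sub, ← smul_sub, h1] }
  have hS : S = ⊤ := by
    apply hU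
    · intro X
      simp [h.unit]
    · intro Y hY X
      have h1 := hY (U * X)
      have e1 := h.shift X Y
      have e2 := h.shift (U * X) Y
      rw [e1, e2]
      have e3 : X * (U * Y) = U * X * Y := by ring
      rw [e3]
      simp only [Algebra.smul_def] at h1 ⊢
      linear_combination h1
  have : Y ∈ S := by rw [hS]; trivial
  exact this X

/-- Symmetry of the covariant derivative of the product. -/
lemma Adapt.psym (h : Adapt U Λ Γ) (hU : Gen (K := K) U) (X Y Z : A) :
    Y * Γ X Z - Γ (X * Y) Z = Z * Γ X Y - Γ (X * Z) Y := by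
  let S : Submodule K A :=
    { carrier := {Z | ∀ X Y, Y * Γ X Z - Γ (X * Y) Z = Z * Γ X Y - Γ (X * Z) Y}
      add_mem' := by
        intro a b ha hb X Y
        have h1 := ha X Y
        have h2 := hb X Y
        simp only [map_add, mul_add, LinearMap.add_apply, add_mul]
        linear_combination h1 + h2
      zero_mem' := by intro X Y; simp
      smul_mem' := by
        intro c a ha X Y
        have h1 := ha X Y
        simp only [map_smul, mul_smul_comm, LinearMap.smul_apply, smul_mul_assoc]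
        rw [← smul_sub, ← smul_sub, h1] }
  have hS : S = ⊤ := by
    apply hU
    · intro X Y
      simp [h.unit]
    · intro Z hZ X Y
      have h1 := hZ (U * X) Y
      have e1 := h.shift X Z
      have e2 := h.shift (X * Y) Z
      have e3 := h.comm hU X Y
      rw [e1, e2]
      have e4 : U * (X * Y) = U * X * Y := by ring
      have e5 : X * (U * Z) = U * X * Z := by ring
      rw [e4, e5]
      simp only [Algebra.smul_def] at h1 e3 ⊢
      linear_combination h1 - Z * e3
  have : Z ∈ S := by rw [hS]; trivial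
  exact this X Y

/-- Uniqueness. -/
lemma Adapt.unique {Γ' : A →ₗ[K] A →ₗ[K] A} (h : Adapt U Λ Γ) (h' : Adapt U Λ Γ')
    (hU : Gen (K := K) U) (X Y : A) : Γ X Y = Γ' X Y := by
  let S : Submodule K A :=
    { carrier := {Y | ∀ X, Γ X Y = Γ' X Y}
      add_mem' := by intro a b ha hb X; rw [map_add, map_add, ha, hb]
      zero_mem' := by intro X; simp
      smul_mem' := by intro c a ha X; rw [map_smul, map_smul, ha] }
  have hS : S = ⊤ := by
    apply hU
    · intro X; rw [h.unit, h'.unit]
    · intro Y hY X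
      rw [h.shift, h'.shift, hY (U * X)]
  have : Y ∈ S := by rw [hS]; trivial
  exact this X

/-- The quasi-derivation property of a logarithmic derivative. -/
def QDer (Γ : A →ₗ[K] A →ₗ[K] A) (G : A →ₗ[K] A) : Prop :=
  ∀ X Y, G X * Y + G Y * X - G (X * Y) = 2 * Γ X Y

/-- The pointwise equation. -/
def Star (Γ : A →ₗ[K] A →ₗ[K] A) (θ : A →ₗ[K] K) (F : A → A → K) : Prop :=
  ∀ X Y Z, F X (Y * Z) - θ (Γ X Y * Z) - θ (Y * Γ X Z) =
    (1 / 2) * (F (X * Y) Z - F Z (X * Y)) + (1 / 2) * (F (X * Z) Y - F Y (X * Z))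

/-- Quasi-derivations solve the equation. -/
lemma star_of_qder [NeZero (2 : K)] {G : A →ₗ[K] A} (hG : QDer Γ G) (θ : A →ₗ[K] K) :
    Star Γ θ (fun X Y => θ (G X * Y)) := by
  intro X Y Z
  have h2 : (2 : K) ≠ 0 := NeZero.ne 2
  have e1 : ∀ a : A, θ (2 * a) = 2 * θ a := by
    intro a
    rw [two_mul, map_add, two_mul]
  have h1 : (2 : K) * θ (Γ X Y * Z) = θ (G X * Y * Z) + θ (G Y * X * Z) - θ (G (X * Y) * Z) := by
    rw [← e1, ← mul_assoc, ← hG X Y, ← map_add, ← map_sub]
    congr 1; ring
  have h3 : (2 : K) * θ (Y * Γ X Z) = θ (G X * Z * Y) + θ (G Z * X * Y) - θ (G (X * Z) * Y) := by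
    rw [← e1, mul_comm Y, ← mul_assoc, ← hG X Z, ← map_add, ← map_sub]
    congr 1; ring
  have e2 : G X * (Y * Z) = G X * Y * Z := by ring
  have e3 : G X * Z * Y = G X * Y * Z := by ring
  have e4 : G Z * (X * Y) = G Z * X * Y := by ring
  have e5 : G Y * (X * Z) = G Y * X * Z := by ring
  rw [e3] at h3
  simp only [e2, e4, e5]
  apply mul_left_cancel₀ h2
  have e6 : (2 : K) * (1 / 2) = 1 := by field_simp
  linear_combination -h1 - h3 - (θ (G (X * Y) * Z) - θ (G Z * X * Y)) * e6
    - (θ (G (X * Z) * Y) - θ (G Y * X * Z)) * e6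

/-- The converse direction: a solution gives a quasi-derivation. -/
lemma qder_of_star [NeZero (2 : K)] (h : Adapt U Λ Γ) (hU : Gen (K := K) U)
    {θ : A →ₗ[K] K} (hθ : ∀ a : A, (∀ b, θ (a * b) = 0) → a = 0) {G : A →ₗ[K] A}
    (hS : Star Γ θ (fun X Y => θ (G X * Y))) : G 1 = 0 ∧ QDer Γ G := by
  have h2 : (2 : K) ≠ 0 := NeZero.ne 2
  have e1 : ∀ a : A, θ (2 * a) = 2 * θ a := by
    intro a
    rw [two_mul, map_add, two_mul]
  have u1 : ∀ Y, Γ 1 Y = 0 := fun Y => by rw [h.symm, h.unit]
  have hG1 : G 1 = 0 := by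
    apply hθ
    intro b
    have := hS 1 b 1
    simp only [u1, mul_one, one_mul, mul_zero, map_zero, sub_zero] at this
    linear_combination this
  refine ⟨hG1, ?_⟩
  have S : ∀ X Y, θ (G X * Y) + θ (G Y * X) = θ (G (X * Y)) + 2 * θ (Γ X Y) := by
    intro X Y
    have := hS X Y 1
    simp only [h.unit, mul_one, mul_zero, map_zero, sub_zero, hG1, zero_mul] at this
    have e6 : (2 : K) * (1 / 2) = 1 := by field_simp
    linear_combination 2 * this + (θ (G (X * Y)) + θ (G X * Y) - θ (G Y * X)) * e6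
  intro X Y
  rw [← sub_eq_zero]
  apply hθ
  intro Z
  have h3 := hS X Y Z
  have h4 := S (X * Y) Z
  have h5 := S (X * Z) Y
  have h6 := congrArg θ (h.psym hU X Y Z)
  simp only [map_sub] at h6
  have e7 : X * Z * Y = X * Y * Z := by ring
  rw [e7] at h5
  have e8 : (G X * Y + G Y * X - G (X * Y) - 2 * Γ X Y) * Z
      = G X * (Y * Z) + G Y * (X * Z) - G (X * Y) * Z - 2 * (Γ X Y * Z) := by ring
  rw [e8, map_sub, map_sub, map_add, e1]
  have e9 : Γ X Y * Z = Z * Γ X Y := by ring
  rw [e9] at h3 ⊢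
  have e6 : (2 : K) * (1 / 2) = 1 := by field_simp
  simp only at h3
  linear_combination h3 - (1 / 2) * h4 + (1 / 2 : K) * h5 + h6
    - (θ (G Y * (X * Z)) - θ (G (X * Y) * Z) + θ (Γ (X * Y) Z) - θ (Γ (X * Z) Y)) * e6

/-- The commutator with the multiplication by `U`. -/
lemma qder_comm (h : Adapt U Λ Γ) {G : A →ₗ[K] A} (hG : QDer Γ G) (X : A) :
    G (U * X) - U * G X = (G U - U * G 1 + algebraMap K A (2 * Λ 1)) * X
      - algebraMap K A (2 * Λ X) := by
  have h1 := hG 1 (U * X)
  have h2 := hG X U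
  have h3 := h.shift X 1
  have h4 := hG 1 X
  rw [mul_comm X U] at h2
  rw [mul_one] at h3
  rw [h3] at h2
  simp only [Algebra.smul_def] at h2
  rw [map_mul (algebraMap K A), map_mul (algebraMap K A), map_ofNat]
  rw [h.symm, h.unit] at h1 h4
  rw [h.unit] at h2
  rw [one_mul] at h1 h4
  linear_combination U * h4 - h2

/-- The recursion in a block forces the vanishing of the linear form on the nilpotent part. -/
lemma block_vanish [NeZero (2 : K)] {G : A →ₗ[K] A} {s : A}
    (hD : ∀ X, G (U * X) - U * G X = s * X - algebraMap K A (2 * Λ X))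
    {e ν : A} {c : K} (he : e * e = e) (heν : e * ν = ν) (hU : U * e = algebraMap K A c * e + ν)
    {m : ℕ} (hm : e * ν ^ m = 0) (hm1 : e * ν ^ (m - 1) ≠ 0) :
    ∀ j, 1 ≤ j → Λ (e * ν ^ j) = 0 := by
  have h2 : (2 : K) ≠ 0 := NeZero.ne 2
  have hbig : ∀ j, m ≤ j → e * ν ^ j = 0 := by
    intro j hj
    obtain ⟨k, rfl⟩ := Nat.exists_eq_add_of_le hj
    rw [pow_add, ← mul_assoc, hm, zero_mul]
  have hrec : ∀ j, e * G (e * ν ^ (j + 1)) = ν * (e * G (e * ν ^ j)) + s * (e * ν ^ j) -
      algebraMap K A (2 * Λ (e * ν ^ j)) * e := by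
    intro j
    have h1 := hD (e * ν ^ j)
    have h3 : U * (e * ν ^ j) = c • (e * ν ^ j) + e * ν ^ (j + 1) := by
      rw [Algebra.smul_def, pow_succ]
      linear_combination ν ^ j * hU - ν ^ j * heν
    rw [h3, map_add, map_smul, Algebra.smul_def] at h1
    linear_combination e * h1 + G (e * ν ^ j) * hU + s * ν ^ j * he + G (e * ν ^ j) * heν * (-1)
  have key : ∀ d j, 1 ≤ j → m ≤ j + d → Λ (e * ν ^ j) = 0 := by
    intro d
    induction d with
    | zero =>
      intro j _ hj
      rw [hbig j (by omega), map_zero]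
    | succ d ih =>
      intro j hj hjd
      by_cases hc : m ≤ j + d
      · exact ih j hj hc
      have hmj : m = j + d + 1 := by omega
      have inner : ∀ t, t ≤ d → ν ^ (j + t) * (e * G (e * ν ^ (m - t))) = 0 := by
        intro t
        induction t with
        | zero => intro _; rw [hbig _ (by omega)]; simp
        | succ t iht =>
          intro ht
          have h1 := iht (by omega)
          have h3 : m - t = (m - (t + 1)) + 1 := by omega
          rw [h3, hrec, ih (m - (t + 1)) (by omega) (by omega)] at h1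
          have h4 : e * ν ^ (m - (t + 1) + (j + t)) = 0 := hbig _ (by omega)
          rw [pow_add] at h4
          rw [← add_assoc j t 1, pow_succ]
          simp only [mul_zero, map_zero, zero_mul, sub_zero] at h1
          linear_combination h1 - s * h4
      have h1 := inner d le_rfl
      have h3 : m - d = j + 1 := by omega
      rw [h3, hrec] at h1
      have h4 : e * ν ^ (j + (j + d)) = 0 := hbig _ (by omega)
      have h5 : e * ν ^ (j + d + 1) = 0 := hbig _ (by omega)
      rw [pow_add] at h4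
      rw [pow_succ] at h5
      have h6 : algebraMap K A (2 * Λ (e * ν ^ j)) * (e * ν ^ (j + d)) = 0 := by
        linear_combination -h1 + s * h4 + (e * G (e * ν ^ j)) * h5
          + (- ν ^ (j + d) * ν * G (e * ν ^ j)) * he
      rw [← Algebra.smul_def] at h6
      have hne : e * ν ^ (j + d) ≠ 0 := by
        have h8 : m - 1 = j + d := by omega
        rwa [h8] at hm1
      rcases mul_eq_zero.1 ((smul_eq_zero.1 h6).resolve_right hne) with h7 | h7
      · exact absurd h7 h2
      · exact h7
  intro j hj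
  exact key m j hj (by omega)

/-- The connection of a solution of the logarithmic problem. -/
noncomputable def GamG (G : A →ₗ[K] A) : A →ₗ[K] A →ₗ[K] A :=
  (1 / 2 : K) • ((LinearMap.mul K A).comp G + ((LinearMap.mul K A).comp G).flip
    - (LinearMap.mul K A).compr₂ G)

lemma GamG_apply (G : A →ₗ[K] A) (X Y : A) :
    GamG (K := K) G X Y = (1 / 2 : K) • (G X * Y + G Y * X - G (X * Y)) := by
  simp [GamG]

lemma adapt_GamG [NeZero (2 : K)] {G : A →ₗ[K] A} {s : A} (h1 : G 1 = 0)
    (hD : ∀ X, G (U * X) - U * G X = s * X - algebraMap K A (2 * Λ X)) :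
    Adapt U Λ (GamG (K := K) G) := by
  have h2 : (2 : K) ≠ 0 := NeZero.ne 2
  refine ⟨?_, ?_, ?_⟩
  · intro X Y
    rw [GamG_apply, GamG_apply, mul_comm Y X]
    congr 1; ring
  · intro X
    rw [GamG_apply, h1]; simp
  · intro X Y
    rw [GamG_apply, GamG_apply, ← smul_sub]
    have e1 := hD X
    have e2 := hD Y
    have e3 : X * (U * Y) = Y * (U * X) := by ring
    rw [e3]
    have e4 : G X * (U * Y) + G (U * Y) * X - G (Y * (U * X)) -
        (G Y * (U * X) + G (U * X) * Y - G (Y * (U * X)))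
        = algebraMap K A (2 * Λ X) * Y - algebraMap K A (2 * Λ Y) * X := by
      linear_combination X * e2 - Y * e1
    rw [e4, ← Algebra.smul_def, ← Algebra.smul_def, smul_sub, smul_smul, smul_smul]
    congr 2 <;> field_simp

/-- Hence every adapted connection is of this form. -/
lemma qder_of_adapt [NeZero (2 : K)] (h : Adapt U Λ Γ) (hU : Gen (K := K) U)
    {G : A →ₗ[K] A} {s : A} (h1 : G 1 = 0)
    (hD : ∀ X, G (U * X) - U * G X = s * X - algebraMap K A (2 * Λ X)) : QDer Γ G := by
  intro X Y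
  rw [h.unique (adapt_GamG h1 hD) hU X Y, GamG_apply]
  have h2 : (2 : K) ≠ 0 := NeZero.ne 2
  have : (2 : A) = algebraMap K A 2 := by rw [map_ofNat]
  rw [this, ← Algebra.smul_def, smul_smul, mul_one_div_cancel h2, one_smul]

end Q198.Fman
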