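import Mathlib

/-! # The truncated polynomial algebra with the `ℓ¹` norm -/

namespace Q198.Fman

open Finset

variable (𝕜 : Type*) [RCLike 𝕜] (m : ℕ)

/-- The space of the block algebra `𝕜[z]/(z^m)`. -/
def Blk : Type _ := PiLp 1 (fun _ : Fin m => 𝕜)

noncomputable instance : NormedAddCommGroup (Blk 𝕜 m) :=
  inferInstanceAs (NormedAddCommGroup (PiLp 1 (fun _ : Fin m => 𝕜)))
noncomputable instance : NormedSpace 𝕜 (Blk 𝕜 m) :=
  inferInstanceAs (NormedSpace 𝕜 (PiLp 1 (fun _ : Fin m => 𝕜)))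
instance : FiniteDimensional 𝕜 (Blk 𝕜 m) :=
  inferInstanceAs (FiniteDimensional 𝕜 (PiLp 1 (fun _ : Fin m => 𝕜)))

variable {𝕜 m}

/-- Coefficients. -/
def cf (x : Blk 𝕜 m) (n : ℕ) : 𝕜 :=
  if h : n < m then WithLp.ofLp (show PiLp 1 (fun _ : Fin m => 𝕜) from x) ⟨n, h⟩ else 0

/-- The element with given coefficients. -/
def ofc (f : ℕ → 𝕜) : Blk 𝕜 m := (WithLp.toLp 1 (fun i : Fin m => f i) : PiLp 1 (fun _ : Fin m => 𝕜))

lemma cf_ofc (f : ℕ → 𝕜) (n : ℕ) : cf (ofc f : Blk 𝕜 m) n = if n < m then f n else 0 := by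
  unfold cf ofc
  by_cases h : n < m <;> simp [h]

lemma cf_ge (x : Blk 𝕜 m) {n : ℕ} (h : m ≤ n) : cf x n = 0 := by
  unfold cf; rw [dif_neg (by omega)]

lemma blk_ext {x y : Blk 𝕜 m} (h : ∀ n, n < m → cf x n = cf y n) : x = y := by
  show (show PiLp 1 (fun _ : Fin m => 𝕜) from x) = y
  apply PiLp.ext
  intro i
  have := h i i.2
  unfold cf at this
  simpa using this

lemma cf_add (x y : Blk 𝕜 m) (n : ℕ) : cf (x + y) n = cf x n + cf y n := by
  unfold cf
  by_cases h : n < m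
  · simp only [h, dite_true]; rfl
  · simp [h]

lemma cf_smul (c : 𝕜) (x : Blk 𝕜 m) (n : ℕ) : cf (c • x) n = c * cf x n := by
  unfold cf
  by_cases h : n < m
  · simp only [h, dite_true]; rfl
  · simp [h]

lemma cf_zero (n : ℕ) : cf (0 : Blk 𝕜 m) n = 0 := by
  have := cf_smul (0 : 𝕜) (0 : Blk 𝕜 m) n
  rwa [zero_smul, zero_mul] at this

lemma cf_neg (x : Blk 𝕜 m) (n : ℕ) : cf (-x) n = - cf x n := by
  have := cf_smul (-1 : 𝕜) x n
  rwa [neg_one_smul, neg_one_mul] at this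

lemma cf_sub (x y : Blk 𝕜 m) (n : ℕ) : cf (x - y) n = cf x n - cf y n := by
  rw [sub_eq_add_neg, cf_add, cf_neg, sub_eq_add_neg]

lemma norm_blk (x : Blk 𝕜 m) : ‖x‖ = ∑ n ∈ range m, ‖cf x n‖ := by
  have h1 : ‖x‖ = ∑ i : Fin m, ‖(show PiLp 1 (fun _ : Fin m => 𝕜) from x) i‖ :=
    PiLp.norm_eq_of_L1 (β := fun _ : Fin m => 𝕜) x
  rw [h1, ← Fin.sum_univ_eq_sum_range (fun n => ‖cf x n‖)]
  apply Finset.sum_congr rfl
  intro i _
  unfold cf
  simp

/-- The lift to power series. -/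
noncomputable def lift (x : Blk 𝕜 m) : PowerSeries 𝕜 := PowerSeries.mk (cf x)

/-- The projection from power series. -/
noncomputable def pro (f : PowerSeries 𝕜) : Blk 𝕜 m := ofc (fun n => PowerSeries.coeff n f)

lemma pro_lift (x : Blk 𝕜 m) : pro (lift x) = x := by
  apply blk_ext
  intro n hn
  simp [pro, lift, cf_ofc, hn]

lemma cf_pro (f : PowerSeries 𝕜) {n : ℕ} (hn : n < m) :
    cf (pro f : Blk 𝕜 m) n = PowerSeries.coeff n f := by
  simp [pro, cf_ofc, hn]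

noncomputable instance : Mul (Blk 𝕜 m) :=
  ⟨fun x y => ofc (fun n => ∑ p ∈ antidiagonal n, cf x p.1 * cf y p.2)⟩
noncomputable instance : One (Blk 𝕜 m) := ⟨ofc (fun n => if n = 0 then 1 else 0)⟩

lemma cf_mul (x y : Blk 𝕜 m) {n : ℕ} (hn : n < m) :
    cf (x * y) n = ∑ p ∈ antidiagonal n, cf x p.1 * cf y p.2 := by
  show cf (ofc _) n = _
  rw [cf_ofc, if_pos hn]

lemma cf_one {n : ℕ} (hn : n < m) : cf (1 : Blk 𝕜 m) n = if n = 0 then 1 else 0 := by
  show cf (ofc _) n = _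
  rw [cf_ofc, if_pos hn]

lemma pro_mul (f g : PowerSeries 𝕜) : (pro (f * g) : Blk 𝕜 m) = pro f * pro g := by
  apply blk_ext
  intro n hn
  rw [cf_pro _ hn, cf_mul _ _ hn, PowerSeries.coeff_mul]
  apply Finset.sum_congr rfl
  intro p hp
  have := HasAntidiagonal.mem_antidiagonal.1 hp
  rw [cf_pro _ (by omega), cf_pro _ (by omega)]

lemma pro_one : (pro 1 : Blk 𝕜 m) = 1 := by
  apply blk_ext
  intro n hn
  rw [cf_pro _ hn, cf_one hn, PowerSeries.coeff_one]

lemma pro_zero : (pro 0 : Blk 𝕜 m) = 0 := by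
  apply blk_ext
  intro n hn
  rw [cf_pro _ hn, cf_zero]; simp

lemma pro_add (f g : PowerSeries 𝕜) : (pro (f + g) : Blk 𝕜 m) = pro f + pro g := by
  apply blk_ext
  intro n hn
  rw [cf_add, cf_pro _ hn, cf_pro _ hn, cf_pro _ hn]; simp

lemma pro_neg (f : PowerSeries 𝕜) : (pro (-f) : Blk 𝕜 m) = -pro f := by
  apply blk_ext
  intro n hn
  rw [cf_neg, cf_pro _ hn, cf_pro _ hn]; simp

lemma pro_sub (f g : PowerSeries 𝕜) : (pro (f - g) : Blk 𝕜 m) = pro f - pro g := by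
  rw [sub_eq_add_neg, pro_add, pro_neg, sub_eq_add_neg]

lemma pro_smul (c : 𝕜) (f : PowerSeries 𝕜) : (pro (c • f) : Blk 𝕜 m) = c • pro f := by
  apply blk_ext
  intro n hn
  rw [cf_smul, cf_pro _ hn, cf_pro _ hn]; simp

lemma pro_surj : Function.Surjective (pro : PowerSeries 𝕜 → Blk 𝕜 m) :=
  fun x => ⟨lift x, pro_lift x⟩

noncomputable instance : CommRing (Blk 𝕜 m) where
  __ := (inferInstance : AddCommGroup (Blk 𝕜 m))
  mul := (· * ·)
  one := 1
  mul_assoc a b c := by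
    obtain ⟨f, rfl⟩ := pro_surj a
    obtain ⟨g, rfl⟩ := pro_surj b
    obtain ⟨h, rfl⟩ := pro_surj c
    rw [← pro_mul, ← pro_mul, ← pro_mul, ← pro_mul, mul_assoc]
  mul_comm a b := by
    obtain ⟨f, rfl⟩ := pro_surj a
    obtain ⟨g, rfl⟩ := pro_surj b
    rw [← pro_mul, ← pro_mul, mul_comm]
  left_distrib a b c := by
    obtain ⟨f, rfl⟩ := pro_surj a
    obtain ⟨g, rfl⟩ := pro_surj b
    obtain ⟨h, rfl⟩ := pro_surj c
    rw [← pro_mul, ← pro_add, ← pro_mul, ← pro_mul, ← pro_add, mul_add]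
  right_distrib a b c := by
    obtain ⟨f, rfl⟩ := pro_surj a
    obtain ⟨g, rfl⟩ := pro_surj b
    obtain ⟨h, rfl⟩ := pro_surj c
    rw [← pro_mul, ← pro_add, ← pro_mul, ← pro_mul, ← pro_add, add_mul]
  zero_mul a := by
    obtain ⟨f, rfl⟩ := pro_surj a
    rw [← pro_zero, ← pro_mul, zero_mul]
  mul_zero a := by
    obtain ⟨f, rfl⟩ := pro_surj a
    rw [← pro_zero, ← pro_mul, mul_zero]
  one_mul a := by
    obtain ⟨f, rfl⟩ := pro_surj a
    rw [← pro_one, ← pro_mul, one_mul]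
  mul_one a := by
    obtain ⟨f, rfl⟩ := pro_surj a
    rw [← pro_one, ← pro_mul, mul_one]

lemma sum_antidiag_le {f g : ℕ → ℝ} (hf : ∀ n, 0 ≤ f n) (hg : ∀ n, 0 ≤ g n) (m : ℕ) :
    ∑ n ∈ range m, ∑ p ∈ antidiagonal n, f p.1 * g p.2 ≤
      (∑ n ∈ range m, f n) * (∑ n ∈ range m, g n) := by
  rw [Finset.sum_mul_sum, ← Finset.sum_product']
  have h1 : ∀ n ∈ range m, ∑ p ∈ antidiagonal n, f p.1 * g p.2 =
      ∑ p ∈ ((range m ×ˢ range m).filter (fun p => p.1 + p.2 ∈ range m)).filter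
        (fun p => p.1 + p.2 = n), f p.1 * g p.2 := by
    intro n hn
    apply Finset.sum_congr _ (fun _ _ => rfl)
    ext p
    have := mem_range.1 hn
    simp only [HasAntidiagonal.mem_antidiagonal, mem_filter, mem_product, mem_range]
    constructor
    · intro h; omega
    · intro h; omega
  rw [Finset.sum_congr rfl h1, Finset.sum_fiberwise_of_maps_to (fun p hp => (mem_filter.1 hp).2)]
  apply Finset.sum_le_sum_of_subset_of_nonneg (Finset.filter_subset _ _)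
  intro p _ _
  exact mul_nonneg (hf _) (hg _)

noncomputable instance : NormedCommRing (Blk 𝕜 m) where
  __ := (inferInstance : NormedAddCommGroup (Blk 𝕜 m))
  __ := (inferInstance : CommRing (Blk 𝕜 m))
  norm_mul_le x y := by
    rw [norm_blk, norm_blk x, norm_blk y]
    refine le_trans ?_ (sum_antidiag_le (fun n => norm_nonneg (cf x n))
      (fun n => norm_nonneg (cf y n)) m)
    apply Finset.sum_le_sum
    intro n hn
    rw [cf_mul _ _ (mem_range.1 hn)]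
    refine (norm_sum_le _ _).trans (le_of_eq ?_)
    apply Finset.sum_congr rfl
    intro p _
    rw [norm_mul]

noncomputable instance : NormedAlgebra 𝕜 (Blk 𝕜 m) where
  __ := Algebra.ofModule (R := 𝕜) (A := Blk 𝕜 m)
    (by
      intro c x y
      obtain ⟨f, rfl⟩ := pro_surj x
      obtain ⟨g, rfl⟩ := pro_surj y
      rw [← pro_smul, ← pro_mul, ← pro_mul, ← pro_smul, smul_mul_assoc])
    (by
      intro c x y
      obtain ⟨f, rfl⟩ := pro_surj x
      obtain ⟨g, rfl⟩ := pro_surj y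
      rw [← pro_smul, ← pro_mul, ← pro_mul, ← pro_smul, mul_smul_comm])
  norm_smul_le c x := by
    exact norm_smul_le c x

end Q198.Fman
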