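import Mathlib

/-! # Regular F-manifolds in David–Hertling coordinates

Definitions for MP_cfa256_gt. All indices of blocks start at `0`: `u α i` is the coordinate
`u^{(i+1)(α)}` of the problem. -/

namespace Q198.Fman

open scoped ContDiff

/-- Coordinate space of a block structure with `r` blocks of sizes `m α`; its elements serve as
points and as tangent vectors (constant vector fields). -/
def Co (𝕜 : Type*) {r : ℕ} (m : Fin r → ℕ) : Type _ := (α : Fin r) → Fin (m α) → 𝕜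

variable {𝕜 : Type*} [RCLike 𝕜] {r : ℕ} {m : Fin r → ℕ}

noncomputable instance instNormedCo : NormedAddCommGroup (Co 𝕜 m) :=
  (Pi.normedAddCommGroup : NormedAddCommGroup ((α : Fin r) → Fin (m α) → 𝕜))

noncomputable instance instSpaceCo : NormedSpace 𝕜 (Co 𝕜 m) :=
  (Pi.normedSpace : NormedSpace 𝕜 ((α : Fin r) → Fin (m α) → 𝕜))

/-- The product `X ∘ Y`, with structure constants
`c^{i(α)}_{j(β)k(γ)} = δ^α_β δ^α_γ δ^i_{j+k}` (indices from `0`). -/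
def circ (X Y : Co 𝕜 m) : Co 𝕜 m := fun α i =>
  ∑ j : Fin (m α), ∑ k : Fin (m α), if (j : ℕ) + (k : ℕ) = (i : ℕ) then X α j * Y α k else 0

/-- The unit field `e`. -/
def unitField : Co 𝕜 m := fun _ i => if (i : ℕ) = 0 then 1 else 0

/-- Regularity at the point `u`: the eigenvalues `u^{1(α)}` of `E ∘` are distinct and every block
is a single Jordan block, `u^{2(α)} ≠ 0` if `m α ≥ 2`. -/
structure Regular (u : Co 𝕜 m) : Prop where
  heads : ∀ α β (hα : 0 < m α) (hβ : 0 < m β), α ≠ β → u α ⟨0, hα⟩ ≠ u β ⟨0, hβ⟩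
  second : ∀ α (h : 1 < m α), u α ⟨1, h⟩ ≠ 0

/-- The directional derivative at `u` of a function with values in a normed space. -/
noncomputable def dir {W : Type*} [NormedAddCommGroup W] [NormedSpace 𝕜 W] (f : Co 𝕜 m → W)
    (u X : Co 𝕜 m) : W := fderiv 𝕜 f u X

/-- The endomorphism `(E - a₀ e) ∘` at the point `v`; the Euler field is `E v = v`. -/
noncomputable def opL (a : Co 𝕜 m → 𝕜) (v Y : Co 𝕜 m) : Co 𝕜 m := circ (v - a v • unitField) Y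

/-- `(∇_X A) Y` at `u` for constant vector fields `X`, `Y`; the connection `∇` is given by its
Christoffel symbols, `(∇_X Y) u = D_X Y + Γ u X Y`. -/
noncomputable def covOp (Γ : Co 𝕜 m → Co 𝕜 m → Co 𝕜 m → Co 𝕜 m)
    (A : Co 𝕜 m → Co 𝕜 m → Co 𝕜 m) (u X Y : Co 𝕜 m) : Co 𝕜 m :=
  dir (fun v => A v Y) u X + Γ u X (A u Y) - A u (Γ u X Y)

/-- The conditions on `∇` at the point `u`: bilinear symbols, no torsion, `∇ e = 0`, and
`d_∇ ((E - a₀ e) ∘) = 0`. -/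
structure IsConn (a : Co 𝕜 m → 𝕜) (Γ : Co 𝕜 m → Co 𝕜 m → Co 𝕜 m → Co 𝕜 m)
    (u : Co 𝕜 m) : Prop where
  linear : ∀ X, IsLinearMap 𝕜 (Γ u X)
  torsionFree : ∀ X Y, Γ u X Y = Γ u Y X
  unitParallel : ∀ X, Γ u X unitField = 0
  closed : ∀ X Y, covOp Γ (opL a) u X Y = covOp Γ (opL a) u Y X

/-- `dθ(X, Y)` at `u` for constant vector fields, where `θ = g(e, ·)` is the counit. -/
noncomputable def dCounit (g : Co 𝕜 m → Co 𝕜 m → Co 𝕜 m → 𝕜) (u X Y : Co 𝕜 m) : 𝕜 :=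
  dir (fun v => g v unitField Y) u X - dir (fun v => g v unitField X) u Y

/-- `(∇_X g)(Y, Z)` at `u` for constant vector fields. -/
noncomputable def covMet (Γ : Co 𝕜 m → Co 𝕜 m → Co 𝕜 m → Co 𝕜 m)
    (g : Co 𝕜 m → Co 𝕜 m → Co 𝕜 m → 𝕜) (u X Y Z : Co 𝕜 m) : 𝕜 :=
  dir (fun v => g v Y Z) u X - g u (Γ u X Y) Z - g u Y (Γ u X Z)

/-- `g` is a smooth symmetric non-degenerate invariant metric on the set `V`. -/
structure IsInvariantMetric (g : Co 𝕜 m → Co 𝕜 m → Co 𝕜 m → 𝕜) (V : Set (Co 𝕜 m)) : Prop where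
  smooth : ∀ Y Z, ContDiffOn 𝕜 ∞ (fun u => g u Y Z) V
  linear : ∀ u ∈ V, ∀ Y, IsLinearMap 𝕜 (g u Y)
  symm : ∀ u ∈ V, ∀ Y Z, g u Y Z = g u Z Y
  nondegenerate : ∀ u ∈ V, ∀ Y, (∀ Z, g u Y Z = 0) → Y = 0
  invariant : ∀ u ∈ V, ∀ X Y Z, g u (circ X Y) Z = g u (circ X Z) Y

/-- The equation `(⋆)` on the set `V`. -/
def SolvesStar (Γ : Co 𝕜 m → Co 𝕜 m → Co 𝕜 m → Co 𝕜 m)
    (g : Co 𝕜 m → Co 𝕜 m → Co 𝕜 m → 𝕜) (V : Set (Co 𝕜 m)) : Prop :=
  ∀ u ∈ V, ∀ X Y Z, covMet Γ g u X Y Z =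
    1 / 2 * dCounit g u (circ X Y) Z + 1 / 2 * dCounit g u (circ X Z) Y

end Q198.Fman
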