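import Mathlib

/-! # Logarithms in a commutative Banach algebra -/

namespace Q198.Fman

open Filter Topology

variable {𝕜 : Type*} [RCLike 𝕜] {A : Type*} [NormedCommRing A] [NormedAlgebra 𝕜 A]
  [CompleteSpace A]

lemma exp_contDiff (x : A) (k : WithTop ℕ∞) : ContDiffAt 𝕜 k (NormedSpace.exp : A → A) x :=
  (NormedSpace.exp_analytic (𝕂 := 𝕜) x).contDiffAt

lemma exists_log : ∃ lg : A → A, ContDiffAt 𝕜 ⊤ lg 1 ∧ ∀ᶠ y in 𝓝 (1 : A), NormedSpace.exp (lg y) = y := by
  have h0 : HasStrictFDerivAt (NormedSpace.exp : A → A)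
      ((ContinuousLinearEquiv.refl 𝕜 A : A ≃L[𝕜] A) : A →L[𝕜] A) 0 :=
    hasStrictFDerivAt_exp_zero
  have h1 : HasFDerivAt (NormedSpace.exp : A → A)
      ((ContinuousLinearEquiv.refl 𝕜 A : A ≃L[𝕜] A) : A →L[𝕜] A) 0 := h0.hasFDerivAt
  have h2 := (exp_contDiff (𝕜 := 𝕜) (0 : A) ⊤).to_localInverse h1 (by simp)
  rw [NormedSpace.exp_zero] at h2
  refine ⟨_, h2, ?_⟩
  have h3 := ((exp_contDiff (𝕜 := 𝕜) (0 : A) ⊤).hasStrictFDerivAt' h1 (by simp)).eventually_right_inverse
  rw [NormedSpace.exp_zero] at h3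
  exact h3

/-- Local logarithm of a map with invertible value. -/
lemma exists_logOf {L : A →L[𝕜] A} {k p : A} (hp : IsUnit (L p + k)) :
    ∃ φ : A → A, ContDiffAt 𝕜 ⊤ φ p ∧ ∀ᶠ u in 𝓝 p, ∀ X, (L u + k) * fderiv 𝕜 φ u X = L X := by
  obtain ⟨lg, hlg, hev⟩ := exists_log (𝕜 := 𝕜) (A := A)
  obtain ⟨c, hc⟩ := hp.exists_right_inv
  have hw : ContDiff 𝕜 ⊤ (fun u : A => (L u + k) * c) := by
    exact (L.contDiff.add contDiff_const).mul contDiff_const
  have hwd : ∀ u, HasFDerivAt (fun u : A => (L u + k) * c) (c • L) u := by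
    intro u
    have := ((L.hasFDerivAt (x := u)).add_const k).mul_const' c
    convert! this using 1
    ext X
    simp
  have hφ : ContDiffAt 𝕜 ⊤ (fun u => lg ((L u + k) * c)) p := by
    have : ContDiffAt 𝕜 ⊤ lg ((L p + k) * c) := by rw [hc]; exact hlg
    exact this.comp p hw.contDiffAt
  refine ⟨_, hφ, ?_⟩
  have h1 : ∀ᶠ u in 𝓝 p, NormedSpace.exp (lg ((L u + k) * c)) = (L u + k) * c := by
    have ht : Tendsto (fun u => (L u + k) * c) (𝓝 p) (𝓝 1) := by
      have := hw.continuous.tendsto p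
      rwa [hc] at this
    exact ht.eventually hev
  have h2 := hφ.eventually (by simp)
  filter_upwards [h1.eventually_nhds, h2] with u hu1 hu2 X
  have hd := (hu2.differentiableAt (by simp)).hasFDerivAt
  have h3 : HasFDerivAt (fun u => NormedSpace.exp (lg ((L u + k) * c)))
      ((NormedSpace.exp (lg ((L u + k) * c)) • (1 : A →L[𝕜] A)).comp
        (fderiv 𝕜 (fun u => lg ((L u + k) * c)) u)) u :=
    (hasFDerivAt_exp (x := lg ((L u + k) * c))).comp u hd
  have h4 := (hwd u).unique (h3.congr_of_eventuallyEq (by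
    filter_upwards [hu1] with v hv
    exact hv.symm))
  have h5 := congrArg (fun T : A →L[𝕜] A => T X) h4
  simp only [ContinuousLinearMap.comp_apply, smul_apply,
    one_apply_eq_self, smul_eq_mul, hu1.self_of_nhds] at h5
  have h6 : (L p + k) * (c * L X) = (L p + k) * (((L u + k) * c) *
    fderiv 𝕜 (fun u => lg ((L u + k) * c)) u X) := by rw [h5]
  linear_combination -h6 + (L X - (L u + k) * fderiv 𝕜 (fun u => lg ((L u + k) * c)) u X) * hc

end Q198.Fman
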