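import Pool.Agent.Q198.Fman.Trans

/-! # The equivalence -/

namespace Q198.Fman

open Finset Filter Topology
open scoped ContDiff

variable {𝕜 : Type*} [RCLike 𝕜] {r : ℕ} {m : Fin r → ℕ}

lemma star_iff {Γ : Co 𝕜 m → Co 𝕜 m → Co 𝕜 m → Co 𝕜 m}
    {g : Co 𝕜 m → Co 𝕜 m → Co 𝕜 m → 𝕜} {u : Co 𝕜 m} (hl : ∀ X, IsLinearMap 𝕜 (Γ u X))
    (hs : ∀ X Y, Γ u X Y = Γ u Y X) {θ : AA 𝕜 m →ₗ[𝕜] 𝕜} (hθ : ∀ x, θ (Ph x) = g u unitField x)
    (hinv : ∀ᶠ v in 𝓝 u, ∀ Y Z, g v Y Z = g v unitField (circ Y Z)) :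
    (∀ X Y Z, covMet Γ g u X Y Z =
      1 / 2 * dCounit g u (circ X Y) Z + 1 / 2 * dCounit g u (circ X Z) Y) ↔
    Star (GamP (Γ u) hl hs) θ
      (fun X Y => fderiv 𝕜 (fun v => g v unitField (Ph.symm Y)) u (Ph.symm X)) := by
  have hd : ∀ Y Z, fderiv 𝕜 (fun v => g v Y Z) u = fderiv 𝕜 (fun v => g v unitField (circ Y Z)) u := by
    intro Y Z
    apply Filter.EventuallyEq.fderiv_eq
    filter_upwards [hinv] with v hv
    exact hv Y Z
  have h0 := hinv.self_of_nhds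
  have key : ∀ x y z : Co 𝕜 m, (covMet Γ g u x y z =
      1 / 2 * dCounit g u (circ x y) z + 1 / 2 * dCounit g u (circ x z) y) ↔
      (fderiv 𝕜 (fun v => g v unitField (circ y z)) u x - g u unitField (circ (Γ u x y) z) -
        g u unitField (circ y (Γ u x z)) =
      (1 / 2) * (fderiv 𝕜 (fun v => g v unitField z) u (circ x y) -
        fderiv 𝕜 (fun v => g v unitField (circ x y)) u z) +
      (1 / 2) * (fderiv 𝕜 (fun v => g v unitField y) u (circ x z) -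
        fderiv 𝕜 (fun v => g v unitField (circ x z)) u y)) := by
    intro x y z
    rw [covMet, dCounit, dCounit, dir, dir, dir, dir, dir, hd, h0 (Γ u x y) z, h0 y (Γ u x z)]
  constructor
  · intro h X Y Z
    obtain ⟨x, rfl⟩ := Ph.surjective X
    obtain ⟨y, rfl⟩ := Ph.surjective Y
    obtain ⟨z, rfl⟩ := Ph.surjective Z
    have h1 := (key x y z).1 (h x y z)
    simp only [GamP_apply, LinearEquiv.symm_apply_apply, ← Ph_circ, hθ]
    exact h1
  · intro h x y z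
    rw [key]
    have h1 := h (Ph x) (Ph y) (Ph z)
    simp only [GamP_apply, LinearEquiv.symm_apply_apply, ← Ph_circ, hθ] at h1
    exact h1

lemma inv_unit {g : Co 𝕜 m → Co 𝕜 m → 𝕜} (hs : ∀ Y Z, g Y Z = g Z Y)
    (hi : ∀ X Y Z, g (circ X Y) Z = g (circ X Z) Y) (Y Z : Co 𝕜 m) :
    g Y Z = g unitField (circ Y Z) := by
  have h1 := hi Y unitField Z
  rw [circ_comm Y unitField, unit_circ] at h1
  rw [h1, hs]

/-- Necessity. -/
theorem necessity (hm : ∀ α, 0 < m α) {p : Co 𝕜 m} (hp : Regular p) (a : Co 𝕜 m →ₗ[𝕜] 𝕜)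
    {Γ : Co 𝕜 m → Co 𝕜 m → Co 𝕜 m → Co 𝕜 m} (hΓ : IsConn a Γ p)
    {V : Set (Co 𝕜 m)} (hV : IsOpen V) (hpV : p ∈ V)
    {g : Co 𝕜 m → Co 𝕜 m → Co 𝕜 m → 𝕜} (hg : IsInvariantMetric g V) (hst : SolvesStar Γ g V) :
    ∃ ε : Fin r → 𝕜, ∀ u, a u = ∑ α, m α * ε α * u α ⟨0, hm α⟩ := by
  have hVn : V ∈ 𝓝 p := hV.mem_nhds hpV
  have hinv : ∀ᶠ v in 𝓝 p, ∀ Y Z, g v Y Z = g v unitField (circ Y Z) := by
    filter_upwards [hVn] with v hv Y Z
    exact inv_unit (hg.symm v hv) (hg.invariant v hv) Y Z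
  let θ : AA 𝕜 m →ₗ[𝕜] 𝕜 := (IsLinearMap.mk' (g p unitField) (hg.linear p hpV unitField)) ∘ₗ
    Ph.symm.toLinearMap
  have hθ : ∀ x, θ (Ph x) = g p unitField x := by
    intro x
    show g p unitField (Ph.symm (Ph x)) = _
    rw [LinearEquiv.symm_apply_apply]
  have hst := (star_iff (Γ := Γ) hΓ.linear hΓ.torsionFree hθ hinv).1 (hst p hpV)
  have hdiff : ∀ y, DifferentiableAt 𝕜 (fun v => g v unitField y) p := fun y =>
    ((hg.smooth unitField y).contDiffAt hVn).differentiableAt (by simp)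
  let F : AA 𝕜 m →ₗ[𝕜] AA 𝕜 m →ₗ[𝕜] 𝕜 := LinearMap.mk₂ 𝕜
    (fun X Y => fderiv 𝕜 (fun v => g v unitField (Ph.symm Y)) p (Ph.symm X))
    (by intro X X' Y; rw [map_add, map_add])
    (by intro c X Y; rw [map_smul, map_smul])
    (by
      intro X Y Y'
      have : (fun v => g v unitField (Ph.symm (Y + Y'))) =ᶠ[𝓝 p]
          fun v => g v unitField (Ph.symm Y) + g v unitField (Ph.symm Y') := by
        filter_upwards [hVn] with v hv
        rw [map_add, (hg.linear v hv _).map_add]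
      rw [this.fderiv_eq, fderiv_fun_add (hdiff _) (hdiff _)]; rfl)
    (by
      intro c X Y
      have : (fun v => g v unitField (Ph.symm (c • Y))) =ᶠ[𝓝 p]
          fun v => c • g v unitField (Ph.symm Y) := by
        filter_upwards [hVn] with v hv
        rw [map_smul, (hg.linear v hv _).map_smul]
      rw [this.fderiv_eq, fderiv_fun_const_smul (hdiff _)]; rfl)
  obtain ⟨ε, hε⟩ := necess hm (reg_Ph hm hp) (adapt_of_conn hΓ)
    (θ := θ) (F := F) (by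
      intro b hb
      have h1 : Ph.symm b = 0 := by
        apply hg.nondegenerate p hpV
        intro Z
        rw [hinv.self_of_nhds]
        have := hb (Ph Z)
        rw [← hθ, circ_eq, LinearEquiv.apply_symm_apply, LinearEquiv.apply_symm_apply]
        exact this
      have h2 := congrArg Ph h1
      rwa [LinearEquiv.apply_symm_apply, map_zero] at h2) hst
  refine ⟨ε, ?_⟩
  intro u
  have h1 := hε (Ph u)
  rw [LinearMap.comp_apply, LinearEquiv.coe_coe, LinearEquiv.symm_apply_apply] at h1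
  rw [h1]
  apply Finset.sum_congr rfl
  intro α _
  rw [cf_Ph, dif_pos (hm α)]

/-- The linear form of the metric. -/
noncomputable def tau : AA 𝕜 m →ₗ[𝕜] 𝕜 := ∑ α, (cfl (𝕜 := 𝕜) (m α) (m α - 1)) ∘ₗ LinearMap.proj α

lemma tau_apply (X : AA 𝕜 m) : tau X = ∑ α, cf (X α) (m α - 1) := by
  simp [tau, cfl]

lemma tau_nondeg (hm : ∀ α, 0 < m α) (a : AA 𝕜 m) (h : ∀ b, tau (a * b) = 0) : a = 0 := by
  funext β
  apply blk_ext
  intro n hn
  have hb := h (Pi.single β (ofc (fun k => if k = m β - 1 - n then 1 else 0)))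
  rw [tau_apply, Finset.sum_eq_single β] at hb
  · rw [Pi.mul_apply, Pi.single_eq_same, cf_mul _ _ (by have := hm β; omega),
      Finset.sum_eq_single (n, m β - 1 - n)] at hb
    · rw [cf_ofc, if_pos (by simp; omega), if_pos rfl, mul_one] at hb
      rw [Pi.zero_apply, cf_zero]
      exact hb
    · intro q hq hne
      have := HasAntidiagonal.mem_antidiagonal.1 hq
      rw [cf_ofc]
      split_ifs with h1 h2
      · exact absurd (Prod.ext (by simp; omega) (by simp; omega)) hne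
      · simp
      · simp
    · intro h1
      exact absurd (by simp; omega) h1
  · intro α _ hα
    rw [Pi.mul_apply, Pi.single_eq_of_ne hα, mul_zero, cf_zero]
  · intro h1; exact absurd (Finset.mem_univ _) h1

/-- The metric. -/
noncomputable def met (h : AA 𝕜 m) (Y Z : Co 𝕜 m) : 𝕜 := tau (h * (Ph Y * Ph Z))

lemma met_apply (h : AA 𝕜 m) (Y Z : Co 𝕜 m) : met h Y Z = tau (h * (Ph Y * Ph Z)) := rfl

/-- Sufficiency. -/
theorem sufficiency (hm : ∀ α, 0 < m α) {p : Co 𝕜 m} (hp : Regular p) (a : Co 𝕜 m →ₗ[𝕜] 𝕜)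
    {Γ : Co 𝕜 m → Co 𝕜 m → Co 𝕜 m → Co 𝕜 m} (hΓ : ∀ᶠ u in 𝓝 p, IsConn a Γ u)
    {ε : Fin r → 𝕜} (hε : ∀ u, a u = ∑ α, m α * ε α * u α ⟨0, hm α⟩) :
    ∃ V : Set (Co 𝕜 m), IsOpen V ∧ p ∈ V ∧ ∃ g, IsInvariantMetric g V ∧ SolvesStar Γ g V := by
  have : CompleteSpace (AA 𝕜 m) := FiniteDimensional.complete 𝕜 _
  have hNZ : NeZero (2 : 𝕜) := ⟨two_ne_zero⟩
  obtain ⟨Ψ, hΨ1, hΨ2⟩ := exists_pot hm (reg_Ph hm hp) ε
  let PL : Co 𝕜 m →L[𝕜] AA 𝕜 m := LinearMap.toContinuousLinearMap Ph.toLinearMap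
  have hPL : ∀ x, PL x = Ph x := fun x => rfl
  have htend : Tendsto (fun u => Ph u) (𝓝 p) (𝓝 (Ph p : AA 𝕜 m)) := PL.continuous.tendsto p
  have h1 := htend.eventually hΨ2
  have h2 := htend.eventually (hΨ1.eventually (by simp))
  have h3 := htend.eventually (reg_eventually (reg_Ph hm hp))
  obtain ⟨V, hVs, hVo, hpV⟩ := eventually_nhds_iff.1 (h1.and (h2.and (h3.and hΓ)))
  refine ⟨V, hVo, hpV, fun u => met (NormedSpace.exp (Ψ (Ph u))), ?_⟩
  have hfd : ∀ u ∈ V, ∀ w : AA 𝕜 m, ∀ x, fderiv 𝕜 (fun v => tau (NormedSpace.exp (Ψ (Ph v)) * w)) u x =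
      tau (NormedSpace.exp (Ψ (Ph u)) * (fderiv 𝕜 Ψ (Ph u) (Ph x) * w)) := by
    intro u hu w x
    have e1 : HasFDerivAt (fun v => Ψ (Ph v)) ((fderiv 𝕜 Ψ (Ph u)).comp PL) u :=
      HasFDerivAt.comp u (f := fun v => PL v) ((((hVs u hu).2.1).differentiableAt (by simp)).hasFDerivAt)
        PL.hasFDerivAt
    have e2 := (hasFDerivAt_exp (𝕂 := 𝕜) (x := Ψ (Ph u))).comp u e1
    have e3 := ((LinearMap.toContinuousLinearMap
      ((tau : AA 𝕜 m →ₗ[𝕜] 𝕜) ∘ₗ LinearMap.mulRight 𝕜 w)).hasFDerivAt).comp u e2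
    have e4 : (fun v => tau (NormedSpace.exp (Ψ (Ph v)) * w)) =
        (⇑(LinearMap.toContinuousLinearMap ((tau : AA 𝕜 m →ₗ[𝕜] 𝕜) ∘ₗ LinearMap.mulRight 𝕜 w)) ∘
          NormedSpace.exp ∘ fun v => Ψ (Ph v)) := rfl
    rw [e4, e3.fderiv]
    simp only [ContinuousLinearMap.comp_apply, LinearMap.coe_toContinuousLinearMap',
      LinearMap.comp_apply, LinearMap.mulRight_apply, smul_apply, one_apply_eq_self, smul_eq_mul,
      hPL]
    rw [mul_assoc]
  refine ⟨⟨?_, ?_, ?_, ?_, ?_⟩, ?_⟩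
  · intro Y Z u hu
    apply ContDiffAt.contDiffWithinAt
    have e1 : ContDiffAt 𝕜 ∞ (fun v => Ψ (Ph v)) u :=
      (((hVs u hu).2.1).of_le le_top).comp u PL.contDiff.contDiffAt
    have e2 : ContDiffAt 𝕜 ∞ (fun v => NormedSpace.exp (Ψ (Ph v))) u :=
      (exp_contDiff (𝕜 := 𝕜) (Ψ (Ph u)) ∞).comp u e1
    have e3 := ((LinearMap.toContinuousLinearMap
      ((tau : AA 𝕜 m →ₗ[𝕜] 𝕜) ∘ₗ LinearMap.mulRight 𝕜 (Ph Y * Ph Z))).contDiff.contDiffAt
        (n := ∞)).comp u e2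
    exact e3
  · intro u _ Y
    refine ⟨?_, ?_⟩
    · intro Z Z'
      rw [met_apply, met_apply, met_apply, map_add, mul_add, mul_add, map_add]
    · intro c Z
      rw [met_apply, met_apply, map_smul, mul_smul_comm, mul_smul_comm, map_smul, smul_eq_mul]
  · intro u _ Y Z
    rw [met_apply, met_apply, mul_comm (Ph Y)]
  · intro u hu Y hY
    have e1 : NormedSpace.exp (Ψ (Ph u)) * Ph Y = 0 := by
      apply tau_nondeg hm
      intro b
      have := hY (Ph.symm b)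
      rwa [met_apply, LinearEquiv.apply_symm_apply, ← mul_assoc] at this
    have e2 : IsUnit (NormedSpace.exp (Ψ (Ph u))) := by
      let _ : NormedAlgebra ℚ (AA 𝕜 m) := NormedAlgebra.restrictScalars ℚ 𝕜 (AA 𝕜 m)
      exact NormedSpace.isUnit_exp (Ψ (Ph u))
    have e3 : Ph Y = 0 := (e2.mul_right_eq_zero).1 e1
    exact (LinearEquiv.map_eq_zero_iff Ph).1 e3
  · intro u _ X Y Z
    rw [met_apply, met_apply, Ph_circ, Ph_circ]
    congr 1; ring
  · intro u hu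
    obtain ⟨⟨g1, g2⟩, _, g4, g5⟩ := hVs u hu
    have hinv : ∀ᶠ v in 𝓝 u, ∀ Y Z, met (NormedSpace.exp (Ψ (Ph v))) Y Z =
        met (NormedSpace.exp (Ψ (Ph v))) unitField (circ Y Z) := by
      apply Eventually.of_forall
      intro v Y Z
      rw [met_apply, met_apply, Ph_unit, Ph_circ, one_mul]
    have hθ : ∀ x : Co 𝕜 m, ((tau : AA 𝕜 m →ₗ[𝕜] 𝕜) ∘ₗ
        LinearMap.mulLeft 𝕜 (NormedSpace.exp (Ψ (Ph u)))) (Ph x) =
        met (NormedSpace.exp (Ψ (Ph u))) unitField x := by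
      intro x
      rw [met_apply, Ph_unit, one_mul]
      rfl
    rw [star_iff (g := fun u => met (NormedSpace.exp (Ψ (Ph u)))) g5.linear g5.torsionFree hθ hinv]
    have hQ : QDer (GamP (Γ u) g5.linear g5.torsionFree) (fderiv 𝕜 Ψ (Ph u)).toLinearMap := by
      apply qder_of_adapt (adapt_of_conn g5) (gen_reg hm g4) (s := sEl ε) g1
      intro X
      have e1 : (a ∘ₗ Ph.symm.toLinearMap) X = lam ε X := by
        rw [LinearMap.comp_apply, LinearEquiv.coe_coe, hε, lam]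
        apply Finset.sum_congr rfl
        intro α _
        obtain ⟨x, rfl⟩ := Ph.surjective X
        rw [LinearEquiv.symm_apply_apply, cf_Ph, dif_pos (hm α)]
      rw [e1]
      exact g2 X
    have hS := star_of_qder hQ
      ((tau : AA 𝕜 m →ₗ[𝕜] 𝕜) ∘ₗ LinearMap.mulLeft 𝕜 (NormedSpace.exp (Ψ (Ph u))))
    convert! hS using 1
    funext X Y
    have e2 : (fun v => met (NormedSpace.exp (Ψ (Ph v))) unitField (Ph.symm Y)) =
        fun v => tau (NormedSpace.exp (Ψ (Ph v)) * Y) := by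
      funext v
      rw [met_apply, Ph_unit, one_mul, LinearEquiv.apply_symm_apply]
    rw [e2, hfd u hu, LinearEquiv.apply_symm_apply]
    rfl

end Q198.Fman
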