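import Pool.Agent.Q198.Fman.Sum

/-! # Shift and derivative in the block algebra -/

namespace Q198.Fman

open Finset

variable {𝕜 : Type*} [RCLike 𝕜] {n : ℕ}

/-- The shift. -/
noncomputable def sh : Blk 𝕜 n →ₗ[𝕜] Blk 𝕜 n where
  toFun x := ofc (fun k => cf x (k + 1))
  map_add' x y := by
    apply blk_ext; intro k hk
    rw [cf_add, cf_ofc, cf_ofc, cf_ofc, if_pos hk, if_pos hk, if_pos hk, cf_add]
  map_smul' c x := by
    apply blk_ext; intro k hk
    rw [RingHom.id_apply, cf_smul, cf_ofc, cf_ofc, if_pos hk, if_pos hk, cf_smul]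

/-- The derivative. -/
noncomputable def dr : Blk 𝕜 n →ₗ[𝕜] Blk 𝕜 n where
  toFun x := ofc (fun k => ((k : 𝕜) + 1) * cf x (k + 1))
  map_add' x y := by
    apply blk_ext; intro k hk
    rw [cf_add, cf_ofc, cf_ofc, cf_ofc, if_pos hk, if_pos hk, if_pos hk, cf_add, mul_add]
  map_smul' c x := by
    apply blk_ext; intro k hk
    rw [RingHom.id_apply, cf_smul, cf_ofc, cf_ofc, if_pos hk, if_pos hk, cf_smul]
    ring

lemma cf_sh (x : Blk 𝕜 n) (k : ℕ) : cf (sh x) k = cf x (k + 1) := by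
  show cf (ofc (fun k => cf x (k + 1)) : Blk 𝕜 n) k = _
  rw [cf_ofc]
  by_cases h : k < n
  · rw [if_pos h]
  · rw [if_neg h, cf_ge _ (by omega)]

lemma cf_dr (x : Blk 𝕜 n) (k : ℕ) : cf (dr x) k = ((k : 𝕜) + 1) * cf x (k + 1) := by
  show cf (ofc (fun k => ((k : 𝕜) + 1) * cf x (k + 1)) : Blk 𝕜 n) k = _
  rw [cf_ofc]
  by_cases h : k < n
  · rw [if_pos h]
  · rw [if_neg h, cf_ge x (n := k + 1) (by omega), mul_zero]

/-- The socle element `z^{n-1}`. -/
noncomputable def top : Blk 𝕜 n := ofc (fun k => if k + 1 = n then 1 else 0)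

lemma cf_top {k : ℕ} (hk : k < n) : cf (top : Blk 𝕜 n) k = if k + 1 = n then 1 else 0 := by
  rw [top, cf_ofc, if_pos hk]

/-- The overflow. -/
noncomputable def ovf (x y : Blk 𝕜 n) : 𝕜 := ∑ p ∈ antidiagonal n, cf x p.1 * cf y p.2

lemma sh_mul (x y : Blk 𝕜 n) :
    sh (x * y) = x * sh y + (cf y 0) • sh x - ovf x y • top := by
  apply blk_ext
  intro k hk
  rw [cf_sub, cf_add, cf_smul, cf_smul, cf_sh, cf_sh, cf_top hk, cf_mul x (sh y) hk]
  have h1 : ∑ p ∈ antidiagonal k, cf x p.1 * cf (sh y) p.2 + cf y 0 * cf x (k + 1) =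
      ∑ p ∈ antidiagonal (k + 1), cf x p.1 * cf y p.2 := by
    rw [Finset.Nat.sum_antidiagonal_succ']
    simp only [cf_sh]
    ring
  rw [h1]
  by_cases h2 : k + 1 = n
  · rw [if_pos h2, cf_ge _ (by omega), h2, ovf]; ring
  · rw [if_neg h2, cf_mul _ _ (by omega)]; ring

lemma dr_mul (x y : Blk 𝕜 n) :
    dr (x * y) = dr x * y + x * dr y - ((n : 𝕜) * ovf x y) • top := by
  apply blk_ext
  intro k hk
  rw [cf_sub, cf_add, cf_smul, cf_dr, cf_top hk, cf_mul x (dr y) hk, cf_mul (dr x) y hk]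
  have h1 : ∑ p ∈ antidiagonal k, cf (dr x) p.1 * cf y p.2 +
      ∑ p ∈ antidiagonal k, cf x p.1 * cf (dr y) p.2 =
      ((k : 𝕜) + 1) * ∑ p ∈ antidiagonal (k + 1), cf x p.1 * cf y p.2 := by
    have h := congrArg (PowerSeries.coeff k) ((PowerSeries.derivative 𝕜).leibniz (lift x) (lift y))
    rw [PowerSeries.coeff_derivative, map_add, smul_eq_mul, smul_eq_mul, PowerSeries.coeff_mul,
      PowerSeries.coeff_mul, PowerSeries.coeff_mul] at h
    simp only [PowerSeries.coeff_derivative, lift, PowerSeries.coeff_mk] at h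
    rw [mul_comm ((k : 𝕜) + 1), h, add_comm]
    congr 1
    · apply Finset.sum_congr rfl
      intro p _
      rw [cf_dr]; ring
    · rw [← Finset.Nat.sum_antidiagonal_swap]
      apply Finset.sum_congr rfl
      intro p _
      rw [cf_dr]
      simp only [Prod.fst_swap, Prod.snd_swap]
      ring
  rw [h1]
  by_cases h2 : k + 1 = n
  · rw [if_pos h2, cf_ge _ (by omega), h2, ovf]
    have : (k : 𝕜) + 1 = n := by rw [← h2]; push_cast; ring
    rw [this]; ring
  · rw [if_neg h2, cf_mul _ _ (by omega)]; ring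

lemma mul_top (x : Blk 𝕜 n) : x * top = (cf x 0) • top := by
  apply blk_ext
  intro k hk
  rw [cf_smul, cf_mul _ _ hk, cf_top hk]
  by_cases h : k + 1 = n
  · rw [if_pos h, Finset.sum_eq_single (0, k)]
    · simp only
      rw [cf_top hk, if_pos h]
    · intro p hp hne
      have := HasAntidiagonal.mem_antidiagonal.1 hp
      rw [cf_top (by omega), if_neg, mul_zero]
      intro h3
      exact hne (Prod.ext (by simp; omega) (by simp; omega))
    · intro h1
      exact absurd (by simp) h1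
  · rw [if_neg h, mul_zero]
    apply Finset.sum_eq_zero
    intro p hp
    have := HasAntidiagonal.mem_antidiagonal.1 hp
    rw [cf_top (by omega), if_neg (by omega), mul_zero]

lemma isUnit_blk (x : Blk 𝕜 n) (hn : 0 < n) (hx : cf x 0 ≠ 0) : IsUnit x := by
  have h1 : x = algebraMap 𝕜 _ (cf x 0) + (x - algebraMap 𝕜 _ (cf x 0)) := by ring
  rw [h1]
  apply IsNilpotent.isUnit_add_left_of_commute
  · exact ⟨n, nil_pow (cf_nil x hn)⟩
  · exact (isUnit_iff_ne_zero.2 hx).map (algebraMap 𝕜 (Blk 𝕜 n))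
  · exact Commute.all _ _

lemma sh_one : sh (1 : Blk 𝕜 n) = 0 := by
  apply blk_ext
  intro k hk
  rw [cf_sh, cf_zero]
  by_cases h : k + 1 < n
  · rw [cf_one h]; simp
  · rw [cf_ge _ (by omega)]

lemma dr_one : dr (1 : Blk 𝕜 n) = 0 := by
  apply blk_ext
  intro k hk
  rw [cf_dr, cf_zero]
  by_cases h : k + 1 < n
  · rw [cf_one h]; simp
  · rw [cf_ge _ (by omega), mul_zero]

/-- The correction for blocks of size one. -/
noncomputable def kap (𝕜 : Type*) [RCLike 𝕜] (n : ℕ) : Blk 𝕜 n := if n = 1 then 1 else 0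

lemma unit_sh {u : Blk 𝕜 n} (hn : 0 < n) (hu : 1 < n → cf u 1 ≠ 0) : IsUnit (sh u + kap 𝕜 n) := by
  by_cases h : n = 1
  · subst h
    apply isUnit_blk _ hn
    rw [kap, if_pos rfl, cf_add, cf_sh, cf_ge u (by omega), cf_one (by omega)]; simp
  · apply isUnit_blk _ hn
    rw [kap, if_neg h, add_zero, cf_sh]
    exact hu (by omega)

lemma unit_dr {u : Blk 𝕜 n} (hn : 0 < n) (hu : 1 < n → cf u 1 ≠ 0) : IsUnit (dr u + kap 𝕜 n) := by
  by_cases h : n = 1
  · subst h
    apply isUnit_blk _ hn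
    rw [kap, if_pos rfl, cf_add, cf_dr, cf_ge u (by omega), cf_one (by omega)]; simp
  · apply isUnit_blk _ hn
    rw [kap, if_neg h, add_zero, cf_dr]
    simpa using hu (by omega)

/-- The block identity. -/
lemma block_id {u x P P' Q Q' : Blk 𝕜 n} (hn : 0 < n) (hu : 1 < n → cf u 1 ≠ 0)
    (hP : (sh u + kap 𝕜 n) * P = sh x) (hQ : (sh u + kap 𝕜 n) * Q = sh (u * x))
    (hP' : (dr u + kap 𝕜 n) * P' = dr x) (hQ' : (dr u + kap 𝕜 n) * Q' = dr (u * x)) :
    (Q' - u * P') - (n : Blk 𝕜 n) * (Q - u * P) = x - (n : Blk 𝕜 n) * algebraMap 𝕜 _ (cf x 0) := by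
  have hω := unit_sh hn hu
  have hω' := unit_dr hn hu
  have e1 := sh_mul u x
  have e2 := dr_mul u x
  have e3 : (dr u + kap 𝕜 n - (sh u + kap 𝕜 n)) * top = 0 := by
    rw [mul_top, cf_sub, cf_add, cf_add, cf_dr, cf_sh]; simp
  have e4 : kap 𝕜 n * ((n : Blk 𝕜 n) * (dr u + kap 𝕜 n) * algebraMap 𝕜 _ (cf x 0) -
      (sh u + kap 𝕜 n) * x) = 0 := by
    by_cases h : n = 1
    · subst h
      have h1 : sh u = 0 := by
        apply blk_ext; intro k hk; rw [cf_sh, cf_zero, cf_ge _ (by omega)]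
      have h2 : dr u = 0 := by
        apply blk_ext; intro k hk; rw [cf_dr, cf_zero, cf_ge _ (by omega), mul_zero]
      have h3 : x = algebraMap 𝕜 _ (cf x 0) := by
        apply blk_ext; intro k hk
        have : k = 0 := by omega
        subst this
        rw [algebraMap_blk, cf_smul, cf_one hn]; simp
      rw [h1, h2, kap, if_pos rfl]
      simp only [zero_add, Nat.cast_one, mul_one, one_mul]
      rw [← h3, sub_self]
    · rw [kap, if_neg h, zero_mul]
  rw [Algebra.smul_def, Algebra.smul_def] at e1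
  rw [Algebra.smul_def, map_mul (algebraMap 𝕜 (Blk 𝕜 n)), map_natCast] at e2
  apply (hω.mul hω').mul_left_cancel
  set κ := kap 𝕜 n
  set ω := sh u + κ with hωd
  set ω' := dr u + κ with hωd'
  have e5 : sh u = ω - κ := by rw [hωd]; ring
  have e6 : dr u = ω' - κ := by rw [hωd']; ring
  rw [e1, e5] at hQ
  rw [e2, e6] at hQ'
  linear_combination ω * hQ' - ω * u * hP' - (n : Blk 𝕜 n) * ω' * hQ + (n : Blk 𝕜 n) * ω' * u * hP
    + (n : Blk 𝕜 n) * (algebraMap 𝕜 (Blk 𝕜 n) (ovf u x)) * e3 + e4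

end Q198.Fman
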