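import Pool.Agent.Q198.Fman.Suff

/-! # The potential -/

namespace Q198.Fman

open Finset Filter Topology

variable {𝕜 : Type*} [RCLike 𝕜] {r : ℕ} {m : Fin r → ℕ}

set_option maxHeartbeats 400000 in
lemma logW (L : AA 𝕜 m →ₗ[𝕜] AA 𝕜 m) (k : AA 𝕜 m) {p : AA 𝕜 m} (hp : IsUnit (L p + k)) :
    ∃ φ : AA 𝕜 m → AA 𝕜 m, ContDiffAt 𝕜 ⊤ φ p ∧ ∀ᶠ u in 𝓝 p, ∀ X,
      (L u + k) * fderiv 𝕜 φ u X = L X := by
  have : CompleteSpace (AA 𝕜 m) := FiniteDimensional.complete 𝕜 _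
  obtain ⟨φ, h1, h2⟩ := exists_logOf (𝕜 := 𝕜) (A := AA 𝕜 m) (L := L.toContinuousLinearMap) (k := k)
    (p := p) (by simpa using hp)
  exact ⟨φ, h1, by simpa using h2⟩

set_option maxHeartbeats 400000 in
/-- The potential. -/
theorem exists_pot (hm : ∀ α, 0 < m α) {p : AA 𝕜 m} (hp : Reg p) (ε : Fin r → 𝕜) :
    ∃ Ψ : AA 𝕜 m → AA 𝕜 m, ContDiffAt 𝕜 ⊤ Ψ p ∧ ∀ᶠ u in 𝓝 p, fderiv 𝕜 Ψ u 1 = 0 ∧
      ∀ X, fderiv 𝕜 Ψ u (u * X) - u * fderiv 𝕜 Ψ u X =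
        sEl ε * X - algebraMap 𝕜 (AA 𝕜 m) (2 * lam ε X) := by
  have h1 : ∀ β : Fin r, ∃ φ : AA 𝕜 m → AA 𝕜 m, ContDiffAt 𝕜 ⊤ φ p ∧ ∀ᶠ u in 𝓝 p, ∀ X,
      (LW β u + KW β) * fderiv 𝕜 φ u X = LW β X := by
    intro β
    exact logW (LW β) (KW β) (unit_W hm hp β)
  have h2 : ∃ φ : AA 𝕜 m → AA 𝕜 m, ContDiffAt 𝕜 ⊤ φ p ∧ ∀ᶠ u in 𝓝 p, ∀ X,
      (LD u + KD) * fderiv 𝕜 φ u X = LD X := by
    exact logW LD KD (unit_D hm hp)
  choose φ hφ1 hφ2 using h1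
  obtain ⟨φ', hφ1', hφ2'⟩ := h2
  refine ⟨fun u => ∑ β, (-(2 * m β * ε β)) • φ β u + sEl ε * φ' u, ?_, ?_⟩
  · exact (ContDiffAt.sum (fun β _ => (hφ1 β).const_smul _)).add (contDiffAt_const.mul hφ1')
  · have h3 : ∀ᶠ u in 𝓝 p, ∀ β, ∀ X, (LW β u + KW β) * fderiv 𝕜 (φ β) u X = LW β X :=
      eventually_all.2 hφ2
    have h4 : ∀ᶠ u in 𝓝 p, ∀ β, ContDiffAt 𝕜 ⊤ (φ β) u :=
      eventually_all.2 (fun β => (hφ1 β).eventually (by simp))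
    have h5 := hφ1'.eventually (by simp)
    filter_upwards [h3, h4, h5, hφ2', reg_eventually hp] with u g3 g4 g5 g6 g7
    have hd : ∀ X, fderiv 𝕜 (fun u => ∑ β, (-(2 * m β * ε β)) • φ β u + sEl ε * φ' u) u X =
        ∑ β, (-(2 * m β * ε β)) • fderiv 𝕜 (φ β) u X + sEl ε * fderiv 𝕜 φ' u X := by
      intro X
      have hA : HasFDerivAt (fun u => ∑ β, (-(2 * m β * ε β)) • φ β u)
          (∑ β, (-(2 * m β * ε β)) • fderiv 𝕜 (φ β) u) u := by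
        apply HasFDerivAt.fun_sum
        intro β _
        exact HasFDerivAt.const_smul ((g4 β).differentiableAt (by simp)).hasFDerivAt
          (-(2 * (m β : 𝕜) * ε β))
      have hB : HasFDerivAt (fun u => sEl ε * φ' u) (sEl ε • fderiv 𝕜 φ' u) u :=
        (g5.differentiableAt (by simp)).hasFDerivAt.const_mul _
      have hAB : HasFDerivAt (fun u => ∑ β, (-(2 * m β * ε β)) • φ β u + sEl ε * φ' u)
          (∑ β, (-(2 * m β * ε β)) • fderiv 𝕜 (φ β) u + sEl ε • fderiv 𝕜 φ' u) u := hA.add hB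
      rw [hAB.fderiv]
      simp
    obtain ⟨q1, q2⟩ := pointwise hm g7 ε (P := fun β X => fderiv 𝕜 (φ β) u X)
      (P' := fun X => fderiv 𝕜 φ' u X) g3 g6
    refine ⟨?_, ?_⟩
    · rw [hd]; exact q1
    · intro X
      rw [hd, hd]; exact q2 X

end Q198.Fman
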