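import Pool.Agent.Q198.Fman.Ops
import Pool.Agent.Q198.Fman.Log

/-! # Construction of the potential -/

namespace Q198.Fman

open Finset Filter Topology

variable {𝕜 : Type*} [RCLike 𝕜] {r : ℕ} {m : Fin r → ℕ}

/-- The coefficient as a linear form. -/
def cfl (n k : ℕ) : Blk 𝕜 n →ₗ[𝕜] 𝕜 where
  toFun x := cf x k
  map_add' x y := cf_add x y k
  map_smul' c x := cf_smul c x k

lemma cf_cont {n k : ℕ} : Continuous (fun x : Blk 𝕜 n => cf x k) :=
  (cfl (𝕜 := 𝕜) n k).continuous_of_finiteDimensional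

lemma reg_eventually {p : AA 𝕜 m} (hp : Reg p) : ∀ᶠ u in 𝓝 p, Reg u := by
  have h1 : ∀ᶠ u in 𝓝 p, ∀ α β, α ≠ β → cf (u α) 0 ≠ cf (u β) 0 := by
    rw [eventually_all]; intro α
    rw [eventually_all]; intro β
    by_cases h : α = β
    · exact Eventually.of_forall (fun u h' => absurd h h')
    · have hc : Continuous (fun u : AA 𝕜 m => cf (u α) 0 - cf (u β) 0) :=
        (cf_cont.comp (continuous_apply α)).sub (cf_cont.comp (continuous_apply β))
      have := hc.continuousAt.eventually_ne (x := p) (sub_ne_zero.2 (hp.heads α β h))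
      filter_upwards [this] with u hu _
      exact sub_ne_zero.1 hu
  have h2 : ∀ᶠ u in 𝓝 p, ∀ α, 1 < m α → cf (u α) 1 ≠ 0 := by
    rw [eventually_all]; intro α
    by_cases h : 1 < m α
    · have hc : Continuous (fun u : AA 𝕜 m => cf (u α) 1) := cf_cont.comp (continuous_apply α)
      have := hc.continuousAt.eventually_ne (x := p) (hp.second α h)
      filter_upwards [this] with u hu _
      exact hu
    · exact Eventually.of_forall (fun u h' => absurd h' h)
  filter_upwards [h1, h2] with u a b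
  exact ⟨a, b⟩

/-- The linear part of `W_β`. -/
noncomputable def LW (β : Fin r) : AA 𝕜 m →ₗ[𝕜] AA 𝕜 m where
  toFun X := fun α => if α = β then sh (X α) else X α - (cf (X β) 0) • (1 : Blk 𝕜 (m α))
  map_add' X Y := by
    funext α
    simp only [Pi.add_apply, cf_add, map_add, add_smul]
    split_ifs
    · rfl
    · abel
  map_smul' c X := by
    funext α
    simp only [Pi.smul_apply, RingHom.id_apply, cf_smul, map_smul]
    split_ifs
    · rfl
    · rw [smul_sub, smul_smul]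

/-- The constant part of `W_β`. -/
noncomputable def KW (β : Fin r) : AA 𝕜 m := fun α => if α = β then kap 𝕜 (m α) else 0

/-- The linear part of `W'`. -/
noncomputable def LD : AA 𝕜 m →ₗ[𝕜] AA 𝕜 m where
  toFun X := fun α => dr (X α)
  map_add' X Y := by funext α; simp
  map_smul' c X := by funext α; simp

/-- The constant part of `W'`. -/
noncomputable def KD : AA 𝕜 m := fun α => kap 𝕜 (m α)

lemma LW_same (β : Fin r) (X : AA 𝕜 m) : LW β X β = sh (X β) := by
  show (if β = β then _ else _) = _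
  rw [if_pos rfl]

lemma LW_ne {α β : Fin r} (h : α ≠ β) (X : AA 𝕜 m) :
    LW β X α = X α - (cf (X β) 0) • (1 : Blk 𝕜 (m α)) := by
  show (if α = β then _ else _) = _
  rw [if_neg h]

lemma KW_same (β : Fin r) : (KW β : AA 𝕜 m) β = kap 𝕜 (m β) := by
  show (if β = β then _ else _) = _
  rw [if_pos rfl]

lemma KW_ne {α β : Fin r} (h : α ≠ β) : (KW β : AA 𝕜 m) α = 0 := by
  show (if α = β then _ else _) = _
  rw [if_neg h]

lemma unit_W (hm : ∀ α, 0 < m α) {u : AA 𝕜 m} (hu : Reg u) (β : Fin r) :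
    IsUnit (LW β u + KW β) := by
  rw [Pi.isUnit_iff]
  intro α
  rw [Pi.add_apply]
  by_cases h : α = β
  · subst h
    rw [LW_same, KW_same]
    exact unit_sh (hm α) (hu.second α)
  · rw [LW_ne h, KW_ne h, add_zero]
    apply isUnit_blk _ (hm α)
    rw [cf_sub, cf_smul, cf_one (hm α)]
    simpa using sub_ne_zero.2 (hu.heads α β h)

lemma unit_D (hm : ∀ α, 0 < m α) {u : AA 𝕜 m} (hu : Reg u) :
    IsUnit (LD u + KD) := by
  rw [Pi.isUnit_iff]
  intro α
  exact unit_dr (hm α) (hu.second α)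

/-- The eigenvalue form. -/
noncomputable def lam (ε : Fin r → 𝕜) (X : AA 𝕜 m) : 𝕜 := ∑ α, m α * ε α * cf (X α) 0

/-- The element `s`. -/
noncomputable def sEl (ε : Fin r → 𝕜) : AA 𝕜 m := fun α => algebraMap 𝕜 (Blk 𝕜 (m α)) (2 * ε α)

lemma pointwise (hm : ∀ α, 0 < m α) {u : AA 𝕜 m} (hu : Reg u) (ε : Fin r → 𝕜)
    {P : Fin r → AA 𝕜 m → AA 𝕜 m} {P' : AA 𝕜 m → AA 𝕜 m}
    (hP : ∀ β X, (LW β u + KW β) * P β X = LW β X) (hP' : ∀ X, (LD u + KD) * P' X = LD X) :
    (∑ β, (-(2 * m β * ε β)) • P β 1 + sEl ε * P' 1 = 0) ∧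
    ∀ X, (∑ β, (-(2 * m β * ε β)) • P β (u * X) + sEl ε * P' (u * X)) -
      u * (∑ β, (-(2 * m β * ε β)) • P β X + sEl ε * P' X) =
      sEl ε * X - algebraMap 𝕜 (AA 𝕜 m) (2 * lam ε X) := by
  have hone : ∀ β, P β 1 = 0 := by
    intro β
    apply (unit_W hm hu β).mul_left_cancel
    rw [hP, mul_zero]
    funext α
    by_cases h : α = β
    · subst h; rw [LW_same]; exact sh_one
    · rw [LW_ne h, Pi.one_apply, Pi.one_apply, cf_one (hm β)]; simp
  have hone' : P' 1 = 0 := by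
    apply (unit_D hm hu).mul_left_cancel
    rw [hP', mul_zero]
    funext α
    exact dr_one
  refine ⟨by simp [hone, hone'], ?_⟩
  intro X
  have hne : ∀ α β, α ≠ β → P β (u * X) α - u α * P β X α = (cf (X β) 0) • (1 : Blk 𝕜 (m α)) := by
    intro α β h
    have h1 := congrFun (hP β (u * X)) α
    have h2 := congrFun (hP β X) α
    rw [Pi.mul_apply, Pi.add_apply, LW_ne h, LW_ne h, KW_ne h, add_zero] at h1 h2
    have h3 : IsUnit (u α - (cf (u β) 0) • (1 : Blk 𝕜 (m α))) := by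
      apply isUnit_blk _ (hm α)
      rw [cf_sub, cf_smul, cf_one (hm α)]
      simpa using sub_ne_zero.2 (hu.heads α β h)
    apply h3.mul_left_cancel
    have h4 : cf ((u * X) β) 0 = cf (u β) 0 * cf (X β) 0 := by
      rw [Pi.mul_apply, cf_mul _ _ (hm β)]; simp
    rw [h4, Pi.mul_apply] at h1
    simp only [← algebraMap_blk, map_mul] at h1 h2 ⊢
    linear_combination h1 - u α * h2
  have heq : ∀ α, (P' (u * X) α - u α * P' X α) - (m α : Blk 𝕜 (m α)) *
      (P α (u * X) α - u α * P α X α) = X α - (m α : Blk 𝕜 (m α)) * algebraMap 𝕜 _ (cf (X α) 0) := by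
    intro α
    have h1 := congrFun (hP α (u * X)) α
    have h2 := congrFun (hP α X) α
    have h3 := congrFun (hP' (u * X)) α
    have h4 := congrFun (hP' X) α
    rw [Pi.mul_apply, Pi.add_apply, LW_same, LW_same, KW_same] at h1 h2
    exact block_id (hm α) (hu.second α) h2 h1 h4 h3
  funext α
  have e1 : ((∑ β, (-(2 * m β * ε β)) • P β (u * X) + sEl ε * P' (u * X)) -
      u * (∑ β, (-(2 * m β * ε β)) • P β X + sEl ε * P' X) : AA 𝕜 m) α =
      ∑ β, (-(2 * m β * ε β)) • (P β (u * X) α - u α * P β X α) +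
        algebraMap 𝕜 (Blk 𝕜 (m α)) (2 * ε α) * (P' (u * X) α - u α * P' X α) := by
    rw [Pi.sub_apply, Pi.mul_apply, Pi.add_apply, Pi.add_apply, Pi.mul_apply, Pi.mul_apply,
      Finset.sum_apply, Finset.sum_apply]
    simp only [Pi.smul_apply, smul_sub, Finset.sum_sub_distrib]
    have e2 : ∑ x, -(2 * ↑(m x) * ε x) • (u α * P x X α) =
        u α * ∑ x, -(2 * ↑(m x) * ε x) • P x X α := by
      rw [Finset.mul_sum]
      apply Finset.sum_congr rfl
      intro x _
      rw [mul_smul_comm]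
    rw [e2]
    show _ + algebraMap 𝕜 (Blk 𝕜 (m α)) (2 * ε α) * _ - u α * (_ + algebraMap 𝕜 (Blk 𝕜 (m α)) (2 * ε α) * _) = _
    ring
  rw [e1, ← Finset.add_sum_erase _ _ (Finset.mem_univ α)]
  have e3 : ∑ β ∈ univ.erase α, (-(2 * m β * ε β)) • (P β (u * X) α - u α * P β X α) =
      ∑ β ∈ univ.erase α, (-(2 * m β * ε β) * cf (X β) 0) • (1 : Blk 𝕜 (m α)) := by
    apply Finset.sum_congr rfl
    intro β hβ
    rw [hne α β (Finset.ne_of_mem_erase hβ).symm, smul_smul]
  rw [e3, ← Finset.sum_smul]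
  have e4 : lam ε X = m α * ε α * cf (X α) 0 + ∑ β ∈ univ.erase α, m β * ε β * cf (X β) 0 := by
    rw [lam, ← Finset.add_sum_erase _ _ (Finset.mem_univ α)]
  have e5 : ∑ β ∈ univ.erase α, (-(2 * m β * ε β) * cf (X β) 0) =
      -2 * ∑ β ∈ univ.erase α, m β * ε β * cf (X β) 0 := by
    rw [Finset.mul_sum]
    apply Finset.sum_congr rfl
    intro β _
    ring
  rw [e5]
  show _ = algebraMap 𝕜 (Blk 𝕜 (m α)) (2 * ε α) * X α -
    algebraMap 𝕜 (Blk 𝕜 (m α)) (2 * lam ε X)
  rw [e4]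
  simp only [Algebra.smul_def, mul_one, map_mul, map_add, map_neg, map_natCast, map_ofNat]
  linear_combination 2 * algebraMap 𝕜 (Blk 𝕜 (m α)) (ε α) * heq α

end Q198.Fman
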