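import Pool.Agent.Q198.Fman.Alg
import Pool.Agent.Q198.Fman.Block

/-! # Regular elements of the algebra `⊕ 𝕜[z]/(z^{m α})` -/

namespace Q198.Fman

open Finset

variable {𝕜 : Type*} [RCLike 𝕜] {n : ℕ}

/-- `x = c z^k + higher order`. -/
def Lead (x : Blk 𝕜 n) (k : ℕ) (c : 𝕜) : Prop := (∀ i, i < k → cf x i = 0) ∧ cf x k = c

lemma Lead.mul {x y : Blk 𝕜 n} {j k : ℕ} {c d : 𝕜} (hx : Lead x j c) (hy : Lead y k d)
    (h : j + k < n) : Lead (x * y) (j + k) (c * d) := by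
  refine ⟨?_, ?_⟩
  · intro i hi
    rw [cf_mul _ _ (by omega)]
    apply Finset.sum_eq_zero
    intro p hp
    have := HasAntidiagonal.mem_antidiagonal.1 hp
    by_cases h1 : p.1 < j
    · rw [hx.1 _ h1, zero_mul]
    · rw [hy.1 p.2 (by omega), mul_zero]
  · rw [cf_mul _ _ h, Finset.sum_eq_single (j, k)]
    · rw [hx.2, hy.2]
    · intro p hp hne
      have := HasAntidiagonal.mem_antidiagonal.1 hp
      by_cases h1 : p.1 < j
      · rw [hx.1 _ h1, zero_mul]
      · by_cases h2 : p.2 < k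
        · rw [hy.1 _ h2, mul_zero]
        · exact absurd (Prod.ext (by simp; omega) (by simp; omega)) hne
    · intro h1
      exact absurd (by simp) h1

lemma lead_one (h : 0 < n) : Lead (1 : Blk 𝕜 n) 0 1 := by
  refine ⟨fun i hi => absurd hi (by omega), ?_⟩
  rw [cf_one h]; simp

lemma algebraMap_blk (c : 𝕜) : algebraMap 𝕜 (Blk 𝕜 n) c = c • (1 : Blk 𝕜 n) :=
  Algebra.algebraMap_eq_smul_one c

lemma lead_sub (x : Blk 𝕜 n) (c : 𝕜) (h : 0 < n) :
    Lead (x - algebraMap 𝕜 _ c) 0 (cf x 0 - c) := by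
  refine ⟨fun i hi => absurd hi (by omega), ?_⟩
  rw [cf_sub, algebraMap_blk, cf_smul, cf_one h]; simp

lemma lead_nil (x : Blk 𝕜 n) (h : 1 < n) :
    Lead (x - algebraMap 𝕜 _ (cf x 0)) 1 (cf x 1) := by
  refine ⟨fun i hi => ?_, ?_⟩
  · have : i = 0 := by omega
    subst this
    rw [cf_sub, algebraMap_blk, cf_smul, cf_one (by omega)]; simp
  · rw [cf_sub, algebraMap_blk, cf_smul, cf_one h]; simp

lemma Lead.pow {x : Blk 𝕜 n} {c : 𝕜} (hx : Lead x 1 c) (j : ℕ) (h : j < n) :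
    Lead (x ^ j) j (c ^ j) := by
  induction j with
  | zero => simpa using lead_one h
  | succ j ih =>
    rw [pow_succ, pow_succ]
    exact (ih (by omega)).mul hx h

lemma Lead.pow0 {x : Blk 𝕜 n} {c : 𝕜} (hx : Lead x 0 c) (j : ℕ) (h : 0 < n) :
    Lead (x ^ j) 0 (c ^ j) := by
  induction j with
  | zero => simpa using lead_one h
  | succ j ih =>
    rw [pow_succ, pow_succ]
    exact ih.mul hx h

lemma cf_pow_eq_zero {x : Blk 𝕜 n} (hx : cf x 0 = 0) (j i : ℕ) (hi : i < j) :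
    cf (x ^ j) i = 0 := by
  induction j generalizing i with
  | zero => omega
  | succ j ih =>
    by_cases hin : i < n
    · rw [pow_succ, cf_mul _ _ hin]
      apply Finset.sum_eq_zero
      intro p hp
      have := HasAntidiagonal.mem_antidiagonal.1 hp
      by_cases h1 : p.1 < j
      · rw [ih _ h1, zero_mul]
      · have : p.2 = 0 := by omega
        rw [this, hx, mul_zero]
    · exact cf_ge _ (by omega)

lemma nil_pow {x : Blk 𝕜 n} (hx : cf x 0 = 0) : x ^ n = 0 := by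
  apply blk_ext
  intro i hi
  rw [cf_pow_eq_zero hx n i hi, cf_zero]

lemma cf_nil (x : Blk 𝕜 n) (h : 0 < n) : cf (x - algebraMap 𝕜 _ (cf x 0)) 0 = 0 := by
  rw [cf_sub, algebraMap_blk, cf_smul, cf_one h]; simp

/-- Triangularity. -/
lemma mem_of_lead {S : Submodule 𝕜 (Blk 𝕜 n)} {j0 : ℕ}
    (h : ∀ j, j0 ≤ j → j < n → ∃ x ∈ S, ∃ c : 𝕜, c ≠ 0 ∧ Lead x j c) (y : Blk 𝕜 n)
    (hy : ∀ i, i < j0 → cf y i = 0) : y ∈ S := by
  have key : ∀ d j, n ≤ j + d → j0 ≤ j → ∀ y : Blk 𝕜 n, (∀ i, i < j → cf y i = 0) → y ∈ S := by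
    intro d
    induction d with
    | zero =>
      intro j hj _ y hy
      have : y = 0 := blk_ext (fun i hi => by rw [hy i (by omega), cf_zero])
      rw [this]; exact S.zero_mem
    | succ d ih =>
      intro j hj hj0 y hy
      by_cases hn : n ≤ j + d
      · exact ih j hn hj0 y hy
      obtain ⟨x, hxS, c, hc, hx⟩ := h j hj0 (by omega)
      have h1 : y - (cf y j / c) • x ∈ S := by
        apply ih (j + 1) (by omega) (by omega)
        intro i hi
        rw [cf_sub, cf_smul]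
        rcases Nat.lt_succ_iff_lt_or_eq.1 hi with h2 | h2
        · rw [hy i h2, hx.1 i h2]; simp
        · rw [h2, hx.2]; field_simp; simp
      have h2 := S.add_mem h1 (S.smul_mem (cf y j / c) hxS)
      rwa [sub_add_cancel] at h2
  exact key n j0 (by omega) le_rfl y hy

variable {r : ℕ} {m : Fin r → ℕ}

/-- The whole algebra. -/
abbrev AA (𝕜 : Type*) [RCLike 𝕜] {r : ℕ} (m : Fin r → ℕ) : Type _ := (α : Fin r) → Blk 𝕜 (m α)

/-- Regular elements. -/
structure Reg (U : AA 𝕜 m) : Prop where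
  heads : ∀ α β, α ≠ β → cf (U α) 0 ≠ cf (U β) 0
  second : ∀ α, 1 < m α → cf (U α) 1 ≠ 0

lemma single_mul_single (β : Fin r) (x y : Blk 𝕜 (m β)) :
    (Pi.single β x : AA 𝕜 m) * Pi.single β y = Pi.single β (x * y) := by
  rw [← Pi.single_mul]

lemma single_pow (β : Fin r) (x : Blk 𝕜 (m β)) (j : ℕ) :
    (Pi.single β 1 : AA 𝕜 m) * (Pi.single β x) ^ j = Pi.single β (x ^ j) := by
  induction j with
  | zero => simp
  | succ j ih => rw [pow_succ, ← mul_assoc, ih, single_mul_single, pow_succ]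

lemma gen_reg (hm : ∀ α, 0 < m α) {U : AA 𝕜 m} (hU : Reg U) : Gen (K := 𝕜) U := by
  intro S h1 hS
  have hc : ∀ (c : 𝕜) (Y : AA 𝕜 m), Y ∈ S → (U - algebraMap 𝕜 _ c) * Y ∈ S := by
    intro c Y hY
    rw [sub_mul, ← Algebra.smul_def]
    exact S.sub_mem (hS Y hY) (S.smul_mem c hY)
  have hcp : ∀ (c : 𝕜) (k : ℕ) (Y : AA 𝕜 m), Y ∈ S → (U - algebraMap 𝕜 _ c) ^ k * Y ∈ S := by
    intro c k Y hY
    induction k with
    | zero => simpa using hY
    | succ k ih => rw [pow_succ', mul_assoc]; exact hc c _ ih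
  have hprod : ∀ (s : Finset (Fin r)) (Y : AA 𝕜 m), Y ∈ S →
      (∏ γ ∈ s, (U - algebraMap 𝕜 (AA 𝕜 m) (cf (U γ) 0)) ^ m γ) * Y ∈ S := by
    intro s
    induction s using Finset.induction_on with
    | empty => intro Y hY; simpa using hY
    | insert γ s hγ ih =>
      intro Y hY
      rw [Finset.prod_insert hγ, mul_assoc]
      exact hcp _ _ _ (ih Y hY)
  have key : ∀ (β : Fin r) (y : Blk 𝕜 (m β)), (Pi.single β y : AA 𝕜 m) ∈ S := by
    intro β
    let T : Submodule 𝕜 (Blk 𝕜 (m β)) := S.comap (LinearMap.single 𝕜 (fun α => Blk 𝕜 (m α)) β)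
    suffices hT : ∀ y, y ∈ T by
      intro y; exact hT y
    intro y
    apply mem_of_lead (j0 := 0) ?_ y (fun i hi => absurd hi (by omega))
    intro j _ hj
    let P : AA 𝕜 m := (∏ γ ∈ univ.erase β, (U - algebraMap 𝕜 (AA 𝕜 m) (cf (U γ) 0)) ^ m γ) *
      ((U - algebraMap 𝕜 (AA 𝕜 m) (cf (U β) 0)) ^ j * 1)
    have hP : P ∈ S := hprod _ _ (hcp _ _ _ h1)
    have hPs : P = Pi.single β (P β) := by
      funext γ
      by_cases hγ : γ = β
      · subst hγ; simp
      · rw [Pi.single_eq_of_ne hγ]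
        have : (∏ γ ∈ univ.erase β, (U - algebraMap 𝕜 (AA 𝕜 m) (cf (U γ) 0)) ^ m γ) γ = 0 := by
          rw [Finset.prod_apply]
          apply Finset.prod_eq_zero (i := γ) (by simp [hγ])
          rw [Pi.pow_apply]
          apply nil_pow
          exact cf_nil _ (hm γ)
        show P γ = 0
        simp only [P]
        rw [Pi.mul_apply, this, zero_mul]
    refine ⟨P β, ?_, ?_⟩
    · show (LinearMap.single 𝕜 (fun α => Blk 𝕜 (m α)) β) (P β) ∈ S
      rw [LinearMap.single_apply, ← hPs]; exact hP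
    · have e1 : P β = (∏ γ ∈ univ.erase β,
          (U β - algebraMap 𝕜 (Blk 𝕜 (m β)) (cf (U γ) 0)) ^ m γ) *
          (U β - algebraMap 𝕜 (Blk 𝕜 (m β)) (cf (U β) 0)) ^ j := by
        simp only [P]
        rw [Pi.mul_apply, Finset.prod_apply, mul_one]
        rfl
      have hlead1 : ∀ s : Finset (Fin r), β ∉ s → ∃ c : 𝕜, c ≠ 0 ∧ Lead (∏ γ ∈ s,
          (U β - algebraMap 𝕜 (Blk 𝕜 (m β)) (cf (U γ) 0)) ^ m γ) 0 c := by
        intro s
        induction s using Finset.induction_on with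
        | empty => intro _; exact ⟨1, one_ne_zero, by simpa using lead_one (hm β)⟩
        | insert γ s hγ ih =>
          intro hβ
          obtain ⟨c, hc0, hc1⟩ := ih (fun h => hβ (Finset.mem_insert_of_mem h))
          rw [Finset.prod_insert hγ]
          have hne : β ≠ γ := fun h => hβ (by rw [h]; exact Finset.mem_insert_self _ _)
          exact ⟨_, mul_ne_zero (pow_ne_zero _ (sub_ne_zero.2 (hU.heads β γ hne))) hc0,
            ((lead_sub (U β) (cf (U γ) 0) (hm β)).pow0 (m γ) (hm β)).mul hc1 (hm β)⟩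
      obtain ⟨c, hc0, hc1⟩ := hlead1 (univ.erase β) (by simp)
      rw [e1]
      rcases Nat.eq_zero_or_pos j with hj0 | hj0
      · subst hj0
        exact ⟨c, hc0, by simpa using hc1⟩
      · have h2 : 1 < m β := by omega
        refine ⟨c * (cf (U β) 1) ^ j, mul_ne_zero hc0 (pow_ne_zero _ (hU.second β h2)), ?_⟩
        have := hc1.mul ((lead_nil (U β) h2).pow j hj) (by omega)
        rwa [zero_add] at this
  rw [Submodule.eq_top_iff']
  intro Y
  have : Y = ∑ β, Pi.single β (Y β) := (Finset.univ_sum_single Y).symm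
  rw [this]
  exact S.sum_mem (fun β _ => key β _)

/-- Necessity. -/
theorem necess (hm : ∀ α, 0 < m α) {U : AA 𝕜 m} (hU : Reg U) {Λ : AA 𝕜 m →ₗ[𝕜] 𝕜}
    {Γ : AA 𝕜 m →ₗ[𝕜] AA 𝕜 m →ₗ[𝕜] AA 𝕜 m} (h : Adapt U Λ Γ) {θ : AA 𝕜 m →ₗ[𝕜] 𝕜}
    (hθ : ∀ a : AA 𝕜 m, (∀ b, θ (a * b) = 0) → a = 0) {F : AA 𝕜 m →ₗ[𝕜] AA 𝕜 m →ₗ[𝕜] 𝕜}
    (hS : Star Γ θ (fun X Y => F X Y)) :
    ∃ ε : Fin r → 𝕜, ∀ X : AA 𝕜 m, Λ X = ∑ α, m α * ε α * cf (X α) 0 := by
  have hgen := gen_reg hm hU
  have : NeZero (2 : 𝕜) := ⟨two_ne_zero⟩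
  let B : AA 𝕜 m →ₗ[𝕜] Module.Dual 𝕜 (AA 𝕜 m) := (LinearMap.mul 𝕜 (AA 𝕜 m)).compr₂ θ
  have hB : ∀ a b, B a b = θ (a * b) := fun a b => rfl
  have hinj : Function.Injective B := by
    rw [← LinearMap.ker_eq_bot, LinearMap.ker_eq_bot']
    intro a ha
    apply hθ
    intro b
    rw [← hB, ha]; rfl
  let Be := LinearMap.linearEquivOfInjective B hinj (Subspace.dual_finrank_eq).symm
  let G : AA 𝕜 m →ₗ[𝕜] AA 𝕜 m := Be.symm.toLinearMap ∘ₗ F
  have hG : ∀ X Y, F X Y = θ (G X * Y) := by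
    intro X Y
    have h1 : B (G X) = F X := LinearEquiv.apply_symm_apply Be (F X)
    rw [← hB, h1]
  have hS' : Star Γ θ (fun X Y => θ (G X * Y)) := by
    intro X Y Z
    have := hS X Y Z
    simpa only [hG] using this
  obtain ⟨hG1, hQ⟩ := qder_of_star h hgen hθ hS'
  have hD := qder_comm h hQ
  have hvan : ∀ β (y : Blk 𝕜 (m β)), cf y 0 = 0 → Λ (Pi.single β y) = 0 := by
    intro β y hy
    let T : Submodule 𝕜 (Blk 𝕜 (m β)) :=
      LinearMap.ker (Λ ∘ₗ (LinearMap.single 𝕜 (fun α => Blk 𝕜 (m α)) β))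
    suffices hT : y ∈ T by exact hT
    apply mem_of_lead (j0 := 1) ?_ y (fun i hi => by
      have : i = 0 := by omega
      rw [this, hy])
    intro j hj1 hj
    have h2 : 1 < m β := by omega
    refine ⟨(U β - algebraMap 𝕜 _ (cf (U β) 0)) ^ j, ?_, _,
      pow_ne_zero j (hU.second β h2), (lead_nil (U β) h2).pow j hj⟩
    show Λ (Pi.single β _) = 0
    rw [← single_pow]
    refine block_vanish hD (c := cf (U β) 0) (m := m β) ?_ ?_ ?_ ?_ ?_ j hj1
    · rw [single_mul_single, mul_one]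
    · rw [single_mul_single, one_mul]
    · funext γ
      by_cases hγ : γ = β
      · subst hγ
        simp
      · simp [Pi.single_eq_of_ne hγ]
    · rw [single_pow, nil_pow (cf_nil _ (hm β))]; simp
    · rw [single_pow]
      intro h0
      have h1 := congrFun h0 β
      rw [Pi.single_eq_same] at h1
      have h3 := ((lead_nil (U β) h2).pow (m β - 1) (by omega)).2
      rw [h1] at h3
      have h4 : cf (0 : Blk 𝕜 (m β)) (m β - 1) = 0 := cf_zero _
      have h5 : cf ((0 : AA 𝕜 m) β) (m β - 1) = 0 := h4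
      rw [h5] at h3
      exact pow_ne_zero _ (hU.second β h2) h3.symm
  refine ⟨fun α => Λ (Pi.single α 1) / m α, ?_⟩
  intro X
  have h1 : X = ∑ β, Pi.single β (X β) := (Finset.univ_sum_single X).symm
  conv_lhs => rw [h1]
  rw [map_sum]
  apply Finset.sum_congr rfl
  intro β _
  have h2 : (m β : 𝕜) ≠ 0 := by
    have := hm β
    exact_mod_cast this.ne'
  have h3 : (Pi.single β (X β) : AA 𝕜 m) =
      (Pi.single β (X β - algebraMap 𝕜 (Blk 𝕜 (m β)) (cf (X β) 0)) : AA 𝕜 m) +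
      (cf (X β) 0) • (Pi.single β 1 : AA 𝕜 m) := by
    rw [← Pi.single_smul, ← Pi.single_add, ← algebraMap_blk, sub_add_cancel]
  rw [h3, map_add, hvan β _ (cf_nil _ (hm β)), map_smul, zero_add, smul_eq_mul]
  field_simp

end Q198.Fman
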