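import Pool.Agent.Q198.Fman.Defs
import Pool.Agent.Q198.Fman.Pot

/-! # Transfer to the normed algebra -/

namespace Q198.Fman

open Finset Filter Topology

variable {𝕜 : Type*} [RCLike 𝕜] {r : ℕ} {m : Fin r → ℕ}

instance : FiniteDimensional 𝕜 (Co 𝕜 m) :=
  inferInstanceAs (FiniteDimensional 𝕜 ((α : Fin r) → Fin (m α) → 𝕜))

/-- The identification of the coordinate space with the algebra. -/
noncomputable def Ph : Co 𝕜 m ≃ₗ[𝕜] AA 𝕜 m :=
  (LinearEquiv.piCongrRight (fun α => (WithLp.linearEquiv 1 𝕜 (Fin (m α) → 𝕜)).symm) :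
    ((α : Fin r) → Fin (m α) → 𝕜) ≃ₗ[𝕜] AA 𝕜 m)

lemma cf_Ph (x : Co 𝕜 m) (α : Fin r) (n : ℕ) :
    cf (Ph x α) n = if h : n < m α then x α ⟨n, h⟩ else 0 := rfl

lemma Ph_circ (x y : Co 𝕜 m) : Ph (circ x y) = Ph x * Ph y := by
  funext α
  apply blk_ext
  intro n hn
  rw [Pi.mul_apply, cf_mul _ _ hn, cf_Ph, dif_pos hn]
  simp only [circ, cf_Ph]
  have h1 : ∀ j : Fin (m α), (∑ k : Fin (m α), if (j : ℕ) + (k : ℕ) = n then x α j * y α k else 0) =
      if h : (j : ℕ) ≤ n then x α j * y α ⟨n - j, by omega⟩ else 0 := by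
    intro j
    by_cases h : (j : ℕ) ≤ n
    · rw [dif_pos h, Finset.sum_eq_single ⟨n - j, by omega⟩]
      · rw [if_pos (by simp; omega)]
      · intro k _ hk
        rw [if_neg]
        intro h2
        apply hk
        ext; simp; omega
      · intro h2; exact absurd (Finset.mem_univ _) h2
    · rw [dif_neg h]
      apply Finset.sum_eq_zero
      intro k _
      rw [if_neg (by omega)]
  rw [Finset.sum_congr rfl (fun j _ => h1 j), Finset.Nat.sum_antidiagonal_eq_sum_range_succ_mk]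
  have h2 : ∑ j : Fin (m α), (if h : (j : ℕ) ≤ n then x α j * y α ⟨n - j, by omega⟩ else 0) =
      ∑ j ∈ range (m α), if h : j ≤ n then (if h' : j < m α then x α ⟨j, h'⟩ else 0) *
        (if h' : n - j < m α then y α ⟨n - j, h'⟩ else 0) else 0 := by
    rw [← Fin.sum_univ_eq_sum_range (fun j => if h : j ≤ n then
      (if h' : j < m α then x α ⟨j, h'⟩ else 0) *
        (if h' : n - j < m α then y α ⟨n - j, h'⟩ else 0) else 0)]
    apply Finset.sum_congr rfl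
    intro j _
    by_cases h : (j : ℕ) ≤ n
    · rw [dif_pos h, dif_pos h, dif_pos j.2, dif_pos (by omega)]
    · rw [dif_neg h, dif_neg h]
  rw [h2]
  symm
  apply Finset.sum_subset_zero_on_sdiff
  · intro j hj
    rw [Finset.mem_range] at hj ⊢
    omega
  · intro j hj
    rw [Finset.mem_sdiff, Finset.mem_range, Finset.mem_range] at hj
    rw [dif_neg (by omega)]
  · intro j hj
    rw [Finset.mem_range] at hj
    simp only
    rw [dif_pos (show j ≤ n by omega)]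

lemma Ph_unit : Ph (unitField : Co 𝕜 m) = 1 := by
  funext α
  apply blk_ext
  intro n hn
  rw [Pi.one_apply, cf_one hn, cf_Ph, dif_pos hn]
  rfl

lemma circ_eq (x y : Co 𝕜 m) : circ x y = Ph.symm (Ph x * Ph y) := by
  rw [← Ph_circ, LinearEquiv.symm_apply_apply]

lemma circ_comm (x y : Co 𝕜 m) : circ x y = circ y x := by
  rw [circ_eq, circ_eq, mul_comm]

lemma unit_circ (x : Co 𝕜 m) : circ unitField x = x := by
  rw [circ_eq, Ph_unit, one_mul, LinearEquiv.symm_apply_apply]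

/-- The product is bilinear and continuous. -/
noncomputable def circL (Y : Co 𝕜 m) : Co 𝕜 m →L[𝕜] Co 𝕜 m :=
  LinearMap.toContinuousLinearMap
    (Ph.symm.toLinearMap ∘ₗ (LinearMap.mulRight 𝕜 (Ph Y)) ∘ₗ Ph.toLinearMap)

lemma circL_apply (X Y : Co 𝕜 m) : circL Y X = circ X Y := by
  rw [circ_eq]; rfl

lemma reg_Ph {u : Co 𝕜 m} (hm : ∀ α, 0 < m α) (hu : Regular u) : Reg (Ph u) := by
  refine ⟨?_, ?_⟩
  · intro α β h
    rw [cf_Ph, cf_Ph, dif_pos (hm α), dif_pos (hm β)]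
    exact hu.heads α β _ _ h
  · intro α h
    rw [cf_Ph, dif_pos h]
    exact hu.second α h

/-- The transferred Christoffel symbols. -/
noncomputable def GamP (γ : Co 𝕜 m → Co 𝕜 m → Co 𝕜 m) (hl : ∀ X, IsLinearMap 𝕜 (γ X))
    (hs : ∀ X Y, γ X Y = γ Y X) : AA 𝕜 m →ₗ[𝕜] AA 𝕜 m →ₗ[𝕜] AA 𝕜 m :=
  LinearMap.mk₂ 𝕜 (fun X Y => Ph (γ (Ph.symm X) (Ph.symm Y)))
    (by intro X X' Y; rw [hs, map_add, (hl _).map_add, map_add, hs, hs (Ph.symm Y)])
    (by intro c X Y; rw [hs, map_smul, (hl _).map_smul, map_smul, hs])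
    (by intro X Y Y'; rw [map_add, (hl _).map_add, map_add])
    (by intro c X Y; rw [map_smul, (hl _).map_smul, map_smul])

lemma GamP_apply (γ : Co 𝕜 m → Co 𝕜 m → Co 𝕜 m) (hl : ∀ X, IsLinearMap 𝕜 (γ X))
    (hs : ∀ X Y, γ X Y = γ Y X) (X Y : AA 𝕜 m) :
    GamP γ hl hs X Y = Ph (γ (Ph.symm X) (Ph.symm Y)) := rfl

lemma covOp_opL (a : Co 𝕜 m →ₗ[𝕜] 𝕜) (Γ : Co 𝕜 m → Co 𝕜 m → Co 𝕜 m → Co 𝕜 m)
    (u X Y : Co 𝕜 m) (hl : ∀ X, IsLinearMap 𝕜 (Γ u X)) : covOp Γ (opL a) u X Y =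
      circ X Y - a X • Y + Γ u X (circ u Y) - circ u (Γ u X Y) := by
  have h0 : ∀ v W : Co 𝕜 m, opL (a : Co 𝕜 m → 𝕜) v W = circ v W - a v • W := by
    intro v W
    rw [opL, ← circL_apply, map_sub, map_smul, circL_apply, circL_apply, unit_circ]
  have h1 : fderiv 𝕜 (fun v => opL (a : Co 𝕜 m → 𝕜) v Y) u X = circ X Y - a X • Y := by
    have h2 : HasFDerivAt (fun v => opL (a : Co 𝕜 m → 𝕜) v Y)
        (circL Y - (LinearMap.toContinuousLinearMap a).smulRight Y) u := by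
      have h3 : (fun v => opL (a : Co 𝕜 m → 𝕜) v Y) =
          (circL Y - (LinearMap.toContinuousLinearMap a).smulRight Y : Co 𝕜 m →L[𝕜] Co 𝕜 m) := by
        funext v
        rw [h0]
        simp [circL_apply]
      rw [h3]
      exact ContinuousLinearMap.hasFDerivAt _
    rw [h2.fderiv]
    simp [circL_apply]
  rw [covOp, dir, h1, h0, h0, (hl X).map_sub, (hl X).map_smul]
  abel

lemma adapt_of_conn {a : Co 𝕜 m →ₗ[𝕜] 𝕜} {Γ : Co 𝕜 m → Co 𝕜 m → Co 𝕜 m → Co 𝕜 m}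
    {u : Co 𝕜 m} (h : IsConn a Γ u) :
    Adapt (Ph u) (a ∘ₗ Ph.symm.toLinearMap) (GamP (Γ u) h.linear h.torsionFree) := by
  refine ⟨?_, ?_, ?_⟩
  · intro X Y
    rw [GamP_apply, GamP_apply, h.torsionFree]
  · intro X
    rw [GamP_apply, ← Ph_unit, LinearEquiv.symm_apply_apply, h.unitParallel, map_zero]
  · intro X Y
    obtain ⟨x, rfl⟩ := Ph.surjective X
    obtain ⟨y, rfl⟩ := Ph.surjective Y
    have h1 := h.closed x y
    rw [covOp_opL _ _ _ _ _ h.linear, covOp_opL _ _ _ _ _ h.linear, circ_comm y x,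
      h.torsionFree y x] at h1
    rw [GamP_apply, GamP_apply, ← Ph_circ, ← Ph_circ]
    simp only [LinearEquiv.symm_apply_apply, LinearMap.comp_apply, LinearEquiv.coe_coe]
    rw [← map_sub, ← map_smul, ← map_smul, ← map_sub]
    congr 1
    have h2 : (circ x y - a x • y + Γ u x (circ u y) - circ u (Γ u x y)) -
      (circ x y - a y • x + Γ u y (circ u x) - circ u (Γ u x y)) = 0 := by rw [h1]; abel
    have h3 : Γ u x (circ u y) - Γ u y (circ u x) - (a x • y - a y • x) = 0 := by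
      rw [← h2]; abel
    exact sub_eq_zero.1 h3

end Q198.Fman
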